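import Pool.Agent.Helper40_ZOL.Stmts

/-!
# ZOL: kit of basic lemmas on words
-/

namespace Pool.Agent.ZOL

open Finset

theorem sub_append (S : Finset ℕ) (u v : Word) : sub S (u ++ v) = sub S u ++ sub S v := by
  simp [sub]

@[simp] theorem sub_nil (S : Finset ℕ) : sub S [] = [] := rfl

theorem sub_cons (S : Finset ℕ) (l : Letter) (w : Word) :
    sub S (l :: w) = if l.1 ∈ S then l :: sub S w else sub S w := by
  by_cases h : l.1 ∈ S <;> simp [sub, h]

theorem mem_sub {S : Finset ℕ} {w : Word} {l : Letter} : l ∈ sub S w ↔ l ∈ w ∧ l.1 ∈ S := by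
  simp [sub]

theorem mem_labels {w : Word} {a : ℕ} : a ∈ labels w ↔ ∃ l ∈ w, l.1 = a := by
  simp [labels]

theorem mem_labels_of_mem {w : Word} {l : Letter} (h : l ∈ w) : l.1 ∈ labels w :=
  mem_labels.2 ⟨l, h, rfl⟩

@[simp] theorem labels_nil : labels [] = ∅ := rfl

theorem labels_cons (l : Letter) (w : Word) : labels (l :: w) = insert l.1 (labels w) := by
  ext a; simp [labels]

theorem labels_append (u v : Word) : labels (u ++ v) = labels u ∪ labels v := by
  ext a; simp [labels]

theorem labels_reverse (u : Word) : labels u.reverse = labels u := by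
  ext a; simp [labels]

theorem sub_reverse (S : Finset ℕ) (w : Word) : sub S w.reverse = (sub S w).reverse := by
  simp [sub]

theorem sub_sub (S T : Finset ℕ) (w : Word) : sub S (sub T w) = sub (S ∩ T) w := by
  simp only [sub, List.filter_filter]
  apply List.filter_congr
  intro l _
  simp [Finset.mem_inter]

theorem labels_sub (S : Finset ℕ) (w : Word) : labels (sub S w) = S ∩ labels w := by
  ext a
  simp only [mem_labels, mem_sub, Finset.mem_inter]
  constructor
  · rintro ⟨l, ⟨h1, h2⟩, rfl⟩
    exact ⟨h2, l, h1, rfl⟩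
  · rintro ⟨h, l, h1, rfl⟩
    exact ⟨l, ⟨h1, h⟩, rfl⟩

theorem sub_eq_self {S : Finset ℕ} {w : Word} (h : labels w ⊆ S) : sub S w = w := by
  simp only [sub, List.filter_eq_self]
  intro l hl
  simpa using h (mem_labels_of_mem hl)

theorem sub_eq_nil {S : Finset ℕ} {w : Word} (h : Disjoint S (labels w)) : sub S w = [] := by
  simp only [sub, List.filter_eq_nil_iff]
  intro l hl
  have := Finset.disjoint_right.1 h (mem_labels_of_mem hl)
  simpa using this

theorem sub_congr {S T : Finset ℕ} {w : Word} (h : S ∩ labels w = T ∩ labels w) :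
    sub S w = sub T w := by
  apply List.filter_congr
  intro l hl
  have hm := mem_labels_of_mem hl
  have : (l.1 ∈ S ∩ labels w) ↔ (l.1 ∈ T ∩ labels w) := by rw [h]
  simp only [Finset.mem_inter, hm, and_true] at this
  simp [this]

/-! relabelling -/

@[simp] theorem relab_nil (σ : ℕ → ℕ) : relab σ [] = [] := rfl

@[simp] theorem relab_cons (σ : ℕ → ℕ) (l : Letter) (w : Word) :
    relab σ (l :: w) = (σ l.1, l.2) :: relab σ w := rfl

theorem relab_append (σ : ℕ → ℕ) (u v : Word) :
    relab σ (u ++ v) = relab σ u ++ relab σ v := by simp [relab]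

theorem relab_reverse (σ : ℕ → ℕ) (u : Word) :
    relab σ u.reverse = (relab σ u).reverse := by simp [relab]

theorem labels_relab (σ : ℕ → ℕ) (w : Word) : labels (relab σ w) = (labels w).image σ := by
  ext a
  simp only [labels, relab, List.map_map, List.mem_toFinset, List.mem_map, Finset.mem_image,
    Function.comp_apply]
  constructor
  · rintro ⟨l, h, rfl⟩; exact ⟨l.1, ⟨l, h, rfl⟩, rfl⟩
  · rintro ⟨x, ⟨l, h, rfl⟩, rfl⟩; exact ⟨l, h, rfl⟩

theorem sub_relab {σ : ℕ → ℕ} {w : Word} (hσ : Set.InjOn σ (labels w : Set ℕ))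
    {S : Finset ℕ} (hS : S ⊆ labels w) : sub (S.image σ) (relab σ w) = relab σ (sub S w) := by
  simp only [sub, relab, List.filter_map]
  congr 1
  apply List.filter_congr
  intro l hl
  have hm := mem_labels_of_mem hl
  simp only [Function.comp_apply, Finset.mem_image, decide_eq_decide]
  constructor
  · rintro ⟨x, hx, hxl⟩
    have := hσ (by exact_mod_cast hS hx) (by exact_mod_cast hm) hxl
    rwa [← this]
  · intro h; exact ⟨_, h, rfl⟩

/-! flips -/

@[simp] theorem flip_nil (S : Finset ℕ) : flip S [] = [] := rfl

theorem flip_append (S : Finset ℕ) (u v : Word) : flip S (u ++ v) = flip S u ++ flip S v := by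
  simp [flip]

theorem flip_empty (w : Word) : flip ∅ w = w := by
  simp [flip]

theorem labels_flip (S : Finset ℕ) (w : Word) : labels (flip S w) = labels w := by
  ext a
  simp only [labels, flip, List.map_map, List.mem_toFinset, List.mem_map, Function.comp_apply]
  constructor
  · rintro ⟨l, h, rfl⟩; exact ⟨l, h, by split <;> rfl⟩
  · rintro ⟨l, h, rfl⟩; exact ⟨l, h, by split <;> rfl⟩

theorem shadow_flip (S : Finset ℕ) (w : Word) : shadow (flip S w) = shadow w := by
  simp only [shadow, flip, List.map_map]
  apply List.map_congr_left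
  intro l _
  simp only [Function.comp_apply]
  split <;> rfl

theorem length_flip (S : Finset ℕ) (w : Word) : (flip S w).length = w.length := by
  simp [flip]

theorem sub_flip (S T : Finset ℕ) (w : Word) : sub S (flip T w) = flip T (sub S w) := by
  simp only [sub, flip, List.filter_map]
  congr 1
  apply List.filter_congr
  intro l _
  simp only [Function.comp_apply]
  split <;> rfl

theorem flip_congr {S T : Finset ℕ} {w : Word} (h : S ∩ labels w = T ∩ labels w) :
    flip S w = flip T w := by
  apply List.map_congr_left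
  intro l hl
  have hm := mem_labels_of_mem hl
  have : (l.1 ∈ S ∩ labels w) ↔ (l.1 ∈ T ∩ labels w) := by rw [h]
  simp only [Finset.mem_inter, hm, and_true] at this
  simp [this]

theorem flip_union {S T : Finset ℕ} (h : Disjoint S T) (w : Word) :
    flip (S ∪ T) w = flip S (flip T w) := by
  simp only [flip, List.map_map]
  apply List.map_congr_left
  intro l _
  simp only [Function.comp_apply, Finset.mem_union]
  by_cases h1 : l.1 ∈ S
  · have h2 : l.1 ∉ T := Finset.disjoint_left.1 h h1
    simp [h1, h2]
  · by_cases h2 : l.1 ∈ T <;> simp [h1, h2]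

theorem flip_flip (S : Finset ℕ) (w : Word) : flip S (flip S w) = w := by
  simp only [flip, List.map_map]
  conv_rhs => rw [← List.map_id w]
  apply List.map_congr_left
  intro l _
  simp only [Function.comp_apply, id]
  by_cases h1 : l.1 ∈ S <;> simp [h1]

theorem flip_flip_comm (S T : Finset ℕ) (w : Word) : flip S (flip T w) = flip T (flip S w) := by
  simp only [flip, List.map_map]
  apply List.map_congr_left
  intro l _
  simp only [Function.comp_apply]
  by_cases h1 : l.1 ∈ S <;> by_cases h2 : l.1 ∈ T <;> simp [h1, h2]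

/-! Gauss words -/

theorem gauss_label {w : Word} (h : IsGauss w) {a : ℕ} (ha : a ∈ labels w) :
    ∃ l : Letter, l.1 = a ∧ sub {a} w = [l, bar l] := by
  obtain ⟨l, hl⟩ := h a ha
  refine ⟨l, ?_, hl⟩
  have : l ∈ sub {a} w := by rw [hl]; simp
  simpa using (mem_sub.1 this).2

theorem isGauss_sub {w : Word} (h : IsGauss w) (S : Finset ℕ) : IsGauss (sub S w) := by
  intro a ha
  rw [labels_sub, Finset.mem_inter] at ha
  obtain ⟨l, hl⟩ := h a ha.2
  refine ⟨l, ?_⟩
  rw [sub_sub]
  have : ({a} : Finset ℕ) ∩ S = {a} := by
    ext x; simp only [Finset.mem_inter, Finset.mem_singleton]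
    constructor
    · exact fun h => h.1
    · rintro rfl; exact ⟨rfl, ha.1⟩
  rw [this, hl]

theorem length_sub_insert {w : Word} {a : ℕ} {S : Finset ℕ} (ha : a ∉ S) :
    (sub (insert a S) w).length = (sub {a} w).length + (sub S w).length := by
  induction w with
  | nil => simp
  | cons l w ih =>
    simp only [sub_cons, Finset.mem_insert, Finset.mem_singleton]
    by_cases h1 : l.1 = a
    · have h2 : l.1 ∉ S := by rw [h1]; exact ha
      simp only [h1, true_or, if_true, h1 ▸ h2, if_false, List.length_cons, ih]
      omega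
    · by_cases h2 : l.1 ∈ S
      · simp only [h1, h2, or_true, if_true, if_false, List.length_cons, ih]; omega
      · simp only [h1, h2, or_false, if_false, ih]

theorem length_sub {w : Word} (h : IsGauss w) (S : Finset ℕ) :
    (sub S w).length = 2 * (S ∩ labels w).card := by
  have key : ∀ T : Finset ℕ, T ⊆ labels w → (sub T w).length = 2 * T.card := by
    intro T
    induction T using Finset.induction_on with
    | empty =>
      intro _
      have : sub ∅ w = [] := sub_eq_nil (by simp)
      simp [this]
    | insert a T ha ih =>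
      intro hT
      rw [length_sub_insert ha, ih (fun x hx => hT (Finset.mem_insert_of_mem hx)),
        Finset.card_insert_of_notMem ha]
      obtain ⟨l, -, hl⟩ := gauss_label h (hT (Finset.mem_insert_self a T))
      rw [hl]; simp; omega
  rw [← key _ Finset.inter_subset_right]
  congr 1
  apply sub_congr
  ext x; simp

theorem sub_eq_nil_iff_gauss {w : Word} {S : Finset ℕ} (hS : S ⊆ labels w) :
    sub S w = [] ↔ S = ∅ := by
  constructor
  · intro h
    by_contra hne
    obtain ⟨a, ha⟩ := Finset.nonempty_iff_ne_empty.2 hne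
    obtain ⟨l, hl, rfl⟩ := mem_labels.1 (hS ha)
    have : l ∈ sub S w := mem_sub.2 ⟨hl, ha⟩
    rw [h] at this
    simp at this
  · rintro rfl; exact sub_eq_nil (by simp)

/-! the pattern function -/

theorem idxOf_map_inj {σ : ℕ → ℕ} : ∀ (l : List ℕ) (a : ℕ), (∀ x ∈ l, σ x = σ a → x = a) →
    (l.map σ).idxOf (σ a) = l.idxOf a := by
  intro l
  induction l with
  | nil => intro a _; simp
  | cons b l ih =>
    intro a h
    have ih' := ih a (fun x hx => h x (List.mem_cons_of_mem _ hx))
    by_cases hb : b = a
    · subst hb; simp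
    · have : σ b ≠ σ a := fun e => hb (h b List.mem_cons_self e)
      simp [hb, this, ih']

theorem shape_relab {σ : ℕ → ℕ} {w : Word} (hσ : Set.InjOn σ (labels w : Set ℕ)) :
    shape (relab σ w) = shape w := by
  have e1 : (relab σ w).map Prod.fst = (w.map Prod.fst).map σ := by
    simp [relab, List.map_map, Function.comp_def]
  simp only [shape]
  rw [e1]
  simp only [relab, List.map_map]
  apply List.map_congr_left
  intro l hl
  simp only [Function.comp_apply]
  rw [← List.map_map, idxOf_map_inj]
  intro x hx he
  have hx' : x ∈ labels w := by simpa [labels] using hx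
  exact hσ (by exact_mod_cast hx') (by exact_mod_cast mem_labels_of_mem hl) he

theorem wsgn_relab (σ : ℕ → ℕ) (w : Word) : wsgn (relab σ w) = wsgn w := by
  simp only [wsgn, relab, List.filter_map, List.map_map]
  congr 1

theorem f_relab (P : List (List (ℕ × Bool))) {σ : ℕ → ℕ} {w : Word}
    (hσ : Set.InjOn σ (labels w : Set ℕ)) : f P (relab σ w) = f P w := by
  simp only [f, shape_relab hσ, wsgn_relab]

theorem length_shape (w : Word) : (shape w).length = w.length := by simp [shape]

theorem f_eq_zero_of_length {P : List (List (ℕ × Bool))} {n : ℕ} (hP : ∀ p ∈ P, p.length = n)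
    {w : Word} (hw : w.length ≠ n) : f P w = 0 := by
  rw [f, if_neg]
  intro h
  exact hw (by rw [← length_shape, hP _ h])

theorem f_eq_zero_of_lt {P : List (List (ℕ × Bool))} {n : ℕ} (hP : ∀ p ∈ P, p.length ≤ n)
    {w : Word} (hw : n < w.length) : f P w = 0 := by
  rw [f, if_neg]
  intro h
  have := hP _ h
  rw [length_shape] at this
  omega

theorem P2_length : ∀ p ∈ P2, p.length = 2 * 2 := by decide

theorem P3_length : ∀ p ∈ P3, p.length = 2 * 3 := by decide

/-- Splitting of a sum over the powerset of a set of labels with one label singled out. -/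
theorem V_insert {P : List (List (ℕ × Bool))} {w : Word} {a : ℕ} {L : Finset ℕ}
    (ha : a ∉ L) (hw : labels w = insert a L) :
    V P w = ∑ S ∈ L.powerset, (f P (sub S w) + f P (sub (insert a S) w)) := by
  rw [V, hw, Finset.sum_powerset_insert ha, ← Finset.sum_add_distrib]

end Pool.Agent.ZOL
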