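import Pool.Agent.Helper40_ZOL.Grow

/-!
# ZOL: growth of torsion, embedding of `(Z/p)^N`
-/

namespace Pool.Agent.ZOL.H40

open Finset

variable {X : Type} [AddCommGroup X] {G : ℕ → AddSubgroup X} {A B : X →+ X} {Θ : ℕ → X →+ X}

theorem Ops.grow (h : Ops G A B Θ) (h0 : G 0 = ⊤) {p : ℕ} (hp : p.Prime)
    (hbad : ∃ d, ¬ NoT G p d) :
    ∃ e, ∀ N d, e + 6 * N ≤ d → ∃ y : ℕ → X, (∀ j < N, y j ∈ G d) ∧ (∀ j < N, (p : ℤ) • y j ∈ G (d + 1)) ∧
      ∀ c : ℕ → ℤ, ∑ j ∈ range N, c j • y j ∈ G (d + 1) → ∀ j < N, (p : ℤ) ∣ c j := by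
  classical
  obtain ⟨e, he, hmin⟩ : ∃ e, ¬ NoT G p e ∧ ∀ d < e, NoT G p d :=
    ⟨Nat.find hbad, Nat.find_spec hbad, fun d hd => not_not.1 (Nat.find_min hbad hd)⟩
  rw [NoT] at he
  push Not at he
  obtain ⟨x, hx, hpx, hnx⟩ := he
  have hcl := h.cl_of_min h0 hmin hx hpx
  have hcop : ∀ c : ℤ, c • x ∈ G (e + 1) → (p : ℤ) ∣ c := by
    intro c hc
    by_contra hnd
    have hco : IsCoprime (p : ℤ) c :=
      (Nat.prime_iff_prime_int.1 hp).coprime_iff_not_dvd.2 hnd
    obtain ⟨u, v, huv⟩ := hco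
    apply hnx
    have : x = u • ((p : ℤ) • x) + v • (c • x) := by
      rw [smul_smul, smul_smul, ← add_smul, huv, one_smul]
    rw [this]
    exact add_mem (zsmul_mem hpx _) (zsmul_mem hc _)
  have hBn : ∀ (k n : ℕ) (y : X), y ∈ G n → B^[k] y ∈ G (n + 3 * k) := by
    intro k
    induction k with
    | zero => intro n y hy; simpa using hy
    | succ k ih => intro n y hy; rw [Function.iterate_succ_apply']; exact h.hB _ _ (ih n y hy)
  have hAn : ∀ (k n : ℕ) (y : X), y ∈ G n → A^[k] y ∈ G (n + 2 * k) := by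
    intro k
    induction k with
    | zero => intro n y hy; simpa using hy
    | succ k ih => intro n y hy; rw [Function.iterate_succ_apply']; exact h.hA _ _ (ih n y hy)
  refine ⟨e, fun N d hd => ?_⟩
  rcases Nat.eq_zero_or_pos N with rfl | hN
  · exact ⟨fun _ => 0, fun j hj => absurd hj (Nat.not_lt_zero j),
      fun j hj => absurd hj (Nat.not_lt_zero j), fun _ _ j hj => absurd hj (Nat.not_lt_zero j)⟩
  obtain ⟨b₀, a, hb₀, hab⟩ : ∃ b₀ a : ℕ, b₀ ≤ 1 ∧ e + 2 * a + 3 * b₀ = d := by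
    rcases Nat.even_or_odd' (d - e) with ⟨k, hk | hk⟩
    · exact ⟨0, k, by omega, by omega⟩
    · exact ⟨1, k - 1, by omega, by omega⟩
  refine ⟨fun j => B^[b₀ + 2 * j] (A^[a - 3 * j] x), fun j hj => ?_, fun j hj => ?_, ?_⟩
  · exact h.mono (by omega) (hBn _ _ _ (hAn _ _ _ hx))
  · have hpow : ∀ (f : X →+ X) (k : ℕ) (y : X), f^[k] ((p : ℤ) • y) = (p : ℤ) • f^[k] y := by
      intro f k
      induction k with
      | zero => intro y; rfl
      | succ k ih => intro y; rw [Function.iterate_succ_apply', ih, map_zsmul,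
          Function.iterate_succ_apply']
    simp only [← hpow]
    exact h.mono (by omega) (hBn _ _ _ (hAn _ _ _ hpx))
  · intro c hc j hj
    exact h.indep hcl hpx hcop b₀ a N (by omega) c (by rw [hab]; exact hc) j hj

/-- an embedding of `(Z/p)^N` from independent elements of order `p` -/
theorem embed {Q : Type} [AddCommGroup Q] {p N : ℕ} (q : Fin N → Q)
    (hq : ∀ j, (p : ℤ) • q j = 0)
    (hind : ∀ c : Fin N → ℤ, ∑ j, c j • q j = 0 → ∀ j, (p : ℤ) ∣ c j) :
    ∃ i : (Fin N → ZMod p) →+ Q, Function.Injective i := by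
  let L : Fin N → (ZMod p →+ Q) := fun j =>
    ZMod.lift p ⟨zmultiplesHom Q (q j), by simpa using hq j⟩
  have hL : ∀ (j : Fin N) (n : ℤ), L j (n : ZMod p) = n • q j := by
    intro j n
    simp [L, ZMod.lift_coe]
  refine ⟨∑ j, (L j).comp (Pi.evalAddMonoidHom (fun _ : Fin N => ZMod p) j), ?_⟩
  rw [injective_iff_map_eq_zero]
  intro c hc
  have hlift : ∀ j, ∃ n : ℤ, (n : ZMod p) = c j := fun j => ZMod.intCast_surjective (c j)
  choose n hn using hlift
  have h1 : ∑ j, n j • q j = 0 := by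
    rw [← hc]
    simp only [AddMonoidHom.finsetSum_apply, AddMonoidHom.comp_apply, Pi.evalAddMonoidHom_apply]
    refine Finset.sum_congr rfl fun j _ => ?_
    rw [← hn j, hL]
  funext j
  have := hind n h1 j
  rw [← hn j]
  exact (ZMod.intCast_zmod_eq_zero_iff_dvd _ _).2 this

end Pool.Agent.ZOL.H40
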