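import Pool.Agent.Helper34_ZOL.ALG

/-!
# ZOL: commutation relations between multiplications and derivations
-/

namespace Pool.Agent.ZOL.H40

open Finset Pool.Agent.ZOL

variable {K : Type}

theorem expand (ι : Type) [Fintype ι] (v : K → ℤ) (M : ι → K → K) (s e : ι → ℤ)
    (hv : ∀ i k, v (M i k) = v k + e i) (j : ℕ) (x : K →₀ ℤ) :
    theta v (j + 1) (∑ i, s i • lin (M i) x) =
      (∑ i, s i • lin (M i) (theta v (j + 1) x)) +
        ∑ i, s i • ∑ p ∈ antidiagonal j,
          Ring.choose (e i) (p.2 + 1) • lin (M i) (theta v p.1 x) := by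
  rw [map_sum, ← Finset.sum_add_distrib]
  refine Finset.sum_congr rfl fun i _ => ?_
  rw [map_zsmul, H34.theta_lin v (M i) (e i) (hv i), Finset.Nat.sum_antidiagonal_succ',
    Ring.choose_zero_right, one_smul, smul_add]

theorem rel0 (ι : Type) [Fintype ι] (G : ℕ → AddSubgroup (K →₀ ℤ)) (v : K → ℤ) (M : ι → K → K)
    (s e : ι → ℤ) (m m' : ℕ) (hmm : m + 1 ≤ m') (anti : Antitone G)
    (hv : ∀ i k, v (M i k) = v k + e i)
    (hth : ∀ j d, ∀ x ∈ G d, theta v j x ∈ G (d - m' * j))
    (hM : ∀ i d, ∀ x ∈ G d, lin (M i) x - x ∈ G (d + 1)) :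
    ∀ j d, ∀ x ∈ G d, theta v j (∑ i, s i • lin (M i) x) -
      (∑ i, s i • lin (M i) (theta v j x)) ∈ G (d + m + 1 - m' * j) := by
  have hMG : ∀ (i : ι) (n : ℕ) (x : K →₀ ℤ), x ∈ G n → lin (M i) x ∈ G n := by
    intro i n x hx
    have h1 := (G n).add_mem (anti (Nat.le_succ n) (hM i n x hx)) hx
    rwa [sub_add_cancel] at h1
  intro j d x hx
  cases j with
  | zero =>
    rw [H34.theta_zero, H34.theta_zero, sub_self]
    exact zero_mem _
  | succ k =>
    rw [expand ι v M s e hv k x, add_sub_cancel_left]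
    refine sum_mem fun i _ => zsmul_mem (sum_mem fun p hp => zsmul_mem ?_ _) _
    have hp' : p.1 + p.2 = k := by simpa using hp
    refine anti ?_ (hMG i _ _ (hth p.1 d x hx))
    have h5 : m' * p.1 ≤ m' * k := Nat.mul_le_mul_left m' (by omega)
    have h6 : m' * (k + 1) = m' * k + m' := by ring
    omega

theorem rel1 (ι : Type) [Fintype ι] (G : ℕ → AddSubgroup (K →₀ ℤ)) (v : K → ℤ) (M : ι → K → K)
    (s e : ι → ℤ) (m : ℕ) (hm : 1 ≤ m) (anti : Antitone G)
    (hv : ∀ i k, v (M i k) = v k + e i)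
    (hth : ∀ j d, ∀ x ∈ G d, theta v j x ∈ G (d - m * j))
    (hM : ∀ i d, ∀ x ∈ G d, lin (M i) x - x ∈ G (d + 1))
    (hse : ∑ i, s i * e i = 1) :
    ∀ j d, ∀ x ∈ G d, theta v (j + 1) (∑ i, s i • lin (M i) x) -
      (∑ i, s i • lin (M i) (theta v (j + 1) x)) - theta v j x ∈
        G (d + m + 1 - m * (j + 1)) := by
  have hMG : ∀ (i : ι) (n : ℕ) (x : K →₀ ℤ), x ∈ G n → lin (M i) x ∈ G n := by
    intro i n x hx
    have h1 := (G n).add_mem (anti (Nat.le_succ n) (hM i n x hx)) hx
    rwa [sub_add_cancel] at h1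
  intro j d x hx
  have h2 : ∀ i, ∑ p ∈ antidiagonal j, Ring.choose (e i) (p.2 + 1) • lin (M i) (theta v p.1 x) =
      e i • lin (M i) (theta v j x) + ∑ p ∈ (antidiagonal j).erase (j, 0),
        Ring.choose (e i) (p.2 + 1) • lin (M i) (theta v p.1 x) := by
    intro i
    rw [← Finset.add_sum_erase (antidiagonal j) _ (show (j, 0) ∈ antidiagonal j by simp)]
    simp only [zero_add, Ring.choose_one_right]
  have h3 : theta v (j + 1) (∑ i, s i • lin (M i) x) -
      (∑ i, s i • lin (M i) (theta v (j + 1) x)) - theta v j x =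
      ∑ i, (s i * e i) • (lin (M i) (theta v j x) - theta v j x) +
      ∑ i, s i • ∑ p ∈ (antidiagonal j).erase (j, 0),
        Ring.choose (e i) (p.2 + 1) • lin (M i) (theta v p.1 x) := by
    have h4 : theta v j x = ∑ i, (s i * e i) • theta v j x := by
      rw [← Finset.sum_smul, hse, one_smul]
    rw [expand ι v M s e hv j x]
    simp only [h2, smul_add, Finset.sum_add_distrib, smul_sub, Finset.sum_sub_distrib, mul_smul]
    simp only [mul_smul] at h4
    rw [← h4]
    abel
  rw [h3]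
  have h6 : m * (j + 1) = m * j + m := by ring
  refine add_mem (sum_mem fun i _ => zsmul_mem (anti ?_ (hM i _ _ (hth j d x hx))) _)
    (sum_mem fun i _ => zsmul_mem (sum_mem fun p hp => zsmul_mem ?_ _) _)
  · omega
  · obtain ⟨hp1, hp2⟩ := Finset.mem_erase.1 hp
    have hp2 : p.1 + p.2 = j := by simpa using hp2
    have hp3 : p.1 < j := by
      rcases Nat.lt_or_ge p.1 j with h | h
      · exact h
      · exfalso
        apply hp1
        apply Prod.ext
        · change p.1 = j
          omega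
        · change p.2 = 0
          omega
    refine anti ?_ (hMG i _ _ (hth p.1 d x hx))
    have h5 : m * p.1 + m ≤ m * j := by
      calc m * p.1 + m = m * (p.1 + 1) := by ring
        _ ≤ m * j := Nat.mul_le_mul_left m hp3
    omega

end Pool.Agent.ZOL.H40
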