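import Pool.Agent.Helper40_ZOL.VRen

namespace Pool.Agent.ZOL.H40

open Finset

theorem f_disc {P : List (List (ℕ × Bool))}
    (hP : ∀ p ∈ P, ∀ k < 6, 0 < k → k < p.length → ∃ q ∈ p.drop k, q.1 < k)
    (hl : ∀ p ∈ P, p.length ≤ 6) (x y : Word) (hx : x ≠ []) (hy : y ≠ [])
    (hd : Disjoint (labels x) (labels y)) : f P (x ++ y) = 0 := by
  rw [f, if_neg]
  intro hm
  have hxl : 0 < x.length := List.length_pos_iff.2 hx
  have hyl : 0 < y.length := List.length_pos_iff.2 hy
  have hlen : (shape (x ++ y)).length = x.length + y.length := by simp [shape]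
  have h6 := hl _ hm
  obtain ⟨q, hq, hqk⟩ := hP _ hm x.length (by omega) hxl (by omega)
  have e : (shape (x ++ y)).drop x.length =
      y.map (fun l => (((x ++ y).map Prod.fst).idxOf l.1, l.2.2)) := by
    simp [shape]
  rw [e] at hq
  obtain ⟨l, hl', rfl⟩ := List.mem_map.1 hq
  have hnot : l.1 ∉ x.map Prod.fst := by
    intro h
    have h1 : l.1 ∈ labels x := by simpa [labels] using h
    exact Finset.disjoint_left.1 hd h1 (mem_labels_of_mem hl')
  simp only [List.map_append] at hqk
  rw [List.idxOf_append_of_notMem hnot] at hqk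
  simp at hqk

theorem f_nil {P : List (List (ℕ × Bool))} (h : [] ∉ P) : f P [] = 0 := by
  rw [f, if_neg]; simpa [shape] using h

theorem v_append {P : List (List (ℕ × Bool))}
    (hP : ∀ p ∈ P, ∀ k < 6, 0 < k → k < p.length → ∃ q ∈ p.drop k, q.1 < k)
    (hl : ∀ p ∈ P, p.length ≤ 6) (h0 : [] ∉ P) (x y : Word)
    (hd : Disjoint (labels x) (labels y)) : V P (x ++ y) = V P x + V P y := by
  have hsub : (labels x).powerset ∪ (labels y).powerset ⊆ (labels (x ++ y)).powerset := by
    intro S hS
    rw [labels_append]
    rcases Finset.mem_union.1 hS with h | h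
    · exact Finset.mem_powerset.2 ((Finset.mem_powerset.1 h).trans Finset.subset_union_left)
    · exact Finset.mem_powerset.2 ((Finset.mem_powerset.1 h).trans Finset.subset_union_right)
  have hinter : (labels x).powerset ∩ (labels y).powerset = {∅} := by
    ext S
    simp only [Finset.mem_inter, Finset.mem_powerset, Finset.mem_singleton]
    constructor
    · rintro ⟨h1, h2⟩
      have := Finset.subset_inter h1 h2
      rw [Finset.disjoint_iff_inter_eq_empty.1 hd] at this
      exact Finset.subset_empty.1 this
    · rintro rfl; exact ⟨Finset.empty_subset _, Finset.empty_subset _⟩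
  have e1 : V P (x ++ y) = ∑ S ∈ (labels x).powerset ∪ (labels y).powerset, f P (sub S (x ++ y)) := by
    rw [V]
    symm
    apply Finset.sum_subset hsub
    intro S hS hS'
    rw [sub_append]
    rw [Finset.mem_union, not_or, Finset.mem_powerset, Finset.mem_powerset] at hS'
    rw [labels_append, Finset.mem_powerset] at hS
    apply f_disc hP hl
    · intro h
      apply hS'.2
      intro a ha
      rcases Finset.mem_union.1 (hS ha) with h1 | h1
      · exfalso
        obtain ⟨l, hl, rfl⟩ := mem_labels.1 h1
        have : l ∈ sub S x := mem_sub.2 ⟨hl, ha⟩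
        rw [h] at this; simp at this
      · exact h1
    · intro h
      apply hS'.1
      intro a ha
      rcases Finset.mem_union.1 (hS ha) with h1 | h1
      · exact h1
      · exfalso
        obtain ⟨l, hl, rfl⟩ := mem_labels.1 h1
        have : l ∈ sub S y := mem_sub.2 ⟨hl, ha⟩
        rw [h] at this; simp at this
    · rw [labels_sub, labels_sub]
      exact hd.mono Finset.inter_subset_right Finset.inter_subset_right
  have e2 := Finset.sum_union_inter (s₁ := (labels x).powerset) (s₂ := (labels y).powerset)
    (f := fun S => f P (sub S (x ++ y)))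
  rw [hinter, Finset.sum_singleton] at e2
  have e3 : f P (sub ∅ (x ++ y)) = 0 := by
    rw [sub_eq_nil (by simp)]; exact f_nil h0
  rw [e3, add_zero] at e2
  rw [e1, e2, V, V]
  congr 1
  · apply Finset.sum_congr rfl
    intro S hS
    rw [sub_append, sub_eq_nil (w := y), List.append_nil]
    exact hd.mono_left (Finset.mem_powerset.1 hS)
  · apply Finset.sum_congr rfl
    intro S hS
    rw [sub_append, sub_eq_nil (w := x), List.nil_append]
    exact (hd.mono_right (Finset.mem_powerset.1 hS)).symm

theorem disj_mul (w E : Word) :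
    Disjoint (labels (relab (fun n => 2 * n) w)) (labels (relab (fun n => 2 * n + 1) E)) := by
  rw [labels_relab, labels_relab, Finset.disjoint_left]
  intro a h1 h2
  obtain ⟨x, _, rfl⟩ := Finset.mem_image.1 h1
  obtain ⟨y, _, h⟩ := Finset.mem_image.1 h2
  omega

theorem vaddP {P : List (List (ℕ × Bool))}
    (hP : ∀ p ∈ P, ∀ k < 6, 0 < k → k < p.length → ∃ q ∈ p.drop k, q.1 < k)
    (hl : ∀ p ∈ P, p.length ≤ 6) (h0 : [] ∉ P) (w E : Word) :
    V P (mul w E) = V P w + V P E := by
  rw [mul, v_append hP hl h0 _ _ (disj_mul w E), vren, vren]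
  · intro a _ b _ h; simp only at h; omega
  · intro a _ b _ h; simp only at h; omega

theorem vadd : VAddStmt := by
  intro w E _ _
  exact ⟨vaddP (by decide) (by decide) (by decide) w E, vaddP (by decide) (by decide) (by decide) w E⟩

end Pool.Agent.ZOL.H40
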