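import Pool.Agent.Helper40_ZOL.Stmts

namespace Pool.Agent.ZOL.H40

open Finset

theorem v2_step (hren : VRenStmt) (h1 : VR1Stmt) (h2a : VR2aStmt) (h2b : VR2bStmt)
    (h3 : VR3aStmt) {w w' : Word} (h : Step w w') (hg : IsGauss w) : V P2 w = V P2 w' := by
  cases h with
  | rename _ σ h => exact (hren P2 w σ h).symm
  | r1 u v a r o => exact (h1 u v a r o hg).1
  | r2a u v z a b r o => exact (h2a u v z a b r o hg).1
  | r2b u v z a b r o => exact (h2b u v z a b r o hg).1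
  | r3 u₀ u₁ u₂ u₃ s₁ s₂ s₃ a b c t m d e h =>
    exact h3 u₀ u₁ u₂ u₃ s₁ s₂ s₃ a b c t m d e h hg

theorem v3_step (hren : VRenStmt) (h1 : VR1Stmt) (h2a : VR2aStmt) (h2b : VR2bStmt)
    (h3 : VR3bStmt) {w w' : Word} (h : Step w w') (hg : IsGauss w) (hp : Planar (shadow w)) :
    V P3 w = V P3 w' := by
  cases h with
  | rename _ σ h => exact (hren P3 w σ h).symm
  | r1 u v a r o => exact (h1 u v a r o hg).2
  | r2a u v z a b r o => exact (h2a u v z a b r o hg).2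
  | r2b u v z a b r o => exact (h2b u v z a b r o hg).2
  | r3 u₀ u₁ u₂ u₃ s₁ s₂ s₃ a b c t m d e h =>
    exact h3 u₀ u₁ u₂ u₃ s₁ s₂ s₃ a b c t m d e h hg hp

/-- existence of the two invariants on `Knot` -/
theorem v2_exists (hren : VRenStmt) (h1 : VR1Stmt) (h2a : VR2aStmt) (h2b : VR2bStmt)
    (h3 : VR3aStmt) : ∃ v : Knot → ℤ, ∀ D : Diagram, v (Quot.mk _ D) = V P2 D.1 :=
  ⟨Quot.lift (fun D : Diagram => V P2 D.1)
    (fun x _ h => v2_step hren h1 h2a h2b h3 h x.2.1), fun _ => rfl⟩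

theorem v3_exists (hren : VRenStmt) (h1 : VR1Stmt) (h2a : VR2aStmt) (h2b : VR2bStmt)
    (h3 : VR3bStmt) : ∃ v : Knot → ℤ, ∀ D : Diagram, v (Quot.mk _ D) = V P3 D.1 :=
  ⟨Quot.lift (fun D : Diagram => V P3 D.1)
    (fun x _ h => v3_step hren h1 h2a h2b h3 h x.2.1 x.2.2), fun _ => rfl⟩

end Pool.Agent.ZOL.H40
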