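import Pool.Agent.Helper40_ZOL.Kit

namespace Pool.Agent.ZOL.H40

open Finset

/-- two adjacent entries with the same label -/
def adj : List (ℕ × Bool) → Bool
  | x :: y :: l => (x.1 == y.1) || adj (y :: l)
  | _ => false

theorem adj_append (l₂ : List (ℕ × Bool)) (x y : ℕ × Bool) (h : x.1 = y.1) :
    ∀ l₁ : List (ℕ × Bool), adj (l₁ ++ x :: y :: l₂) = true := by
  intro l₁
  induction l₁ with
  | nil => simp [adj, h]
  | cons z l₁ ih =>
    cases l₁ with
    | nil => simp only [List.nil_append, List.cons_append] at ih ⊢; simp [adj] at ih ⊢; tauto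
    | cons t l₁ => simp only [List.cons_append] at ih ⊢; simp [adj, ih]

theorem f_adj {P : List (List (ℕ × Bool))} (hP : ∀ p ∈ P, adj p = false) (u v : Word)
    (x y : Letter) (h : x.1 = y.1) : f P (u ++ [x, y] ++ v) = 0 := by
  rw [f, if_neg]
  intro hm
  have h1 := hP _ hm
  have h2 : adj (shape (u ++ [x, y] ++ v)) = true := by
    have : shape (u ++ [x, y] ++ v) =
        (u.map (fun l => (((u ++ [x, y] ++ v).map Prod.fst).idxOf l.1, l.2.2))) ++
        (((u ++ [x, y] ++ v).map Prod.fst).idxOf x.1, x.2.2) ::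
        (((u ++ [x, y] ++ v).map Prod.fst).idxOf y.1, y.2.2) ::
        (v.map (fun l => (((u ++ [x, y] ++ v).map Prod.fst).idxOf l.1, l.2.2))) := by
      simp [shape]
    rw [this]
    apply adj_append
    simp only [h]
  rw [h1] at h2
  exact absurd h2 (by simp)

theorem vr1P {P : List (List (ℕ × Bool))} (hP : ∀ p ∈ P, adj p = false)
    (u v : Word) (a : ℕ) (r o : Bool) (hg : IsGauss (u ++ [(a, r, o), (a, !r, !o)] ++ v)) :
    V P (u ++ [(a, r, o), (a, !r, !o)] ++ v) = V P (u ++ v) := by
  have hlab : labels (u ++ [(a, r, o), (a, !r, !o)] ++ v) = insert a (labels (u ++ v)) := by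
    ext z
    simp only [labels_append, labels_cons, labels_nil, Finset.mem_union, Finset.mem_insert,
      Finset.notMem_empty, or_false]
    tauto
  have hfresh : a ∉ labels (u ++ v) := by
    obtain ⟨l, hl1, hl2⟩ := gauss_label hg (a := a) (by rw [hlab]; simp)
    have hlen := congrArg List.length hl2
    simp only [sub_append, sub_cons, Finset.mem_singleton, if_true, sub_nil,
      List.length_append, List.length_cons, List.length_nil] at hlen
    have h1 : (sub {a} u).length = 0 := by omega
    have h2 : (sub {a} v).length = 0 := by omega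
    rw [labels_append, Finset.mem_union]
    rintro (h | h)
    · obtain ⟨l, hl, rfl⟩ := mem_labels.1 h
      have : l ∈ sub {l.1} u := mem_sub.2 ⟨hl, by simp⟩
      rw [List.length_eq_zero_iff.1 h1] at this; simp at this
    · obtain ⟨l, hl, rfl⟩ := mem_labels.1 h
      have : l ∈ sub {l.1} v := mem_sub.2 ⟨hl, by simp⟩
      rw [List.length_eq_zero_iff.1 h2] at this; simp at this
  rw [V_insert hfresh hlab, V]
  apply Finset.sum_congr rfl
  intro S hS
  have haS : a ∉ S := fun h => hfresh (Finset.mem_powerset.1 hS h)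
  have e1 : sub S (u ++ [(a, r, o), (a, !r, !o)] ++ v) = sub S (u ++ v) := by
    simp [sub_append, sub_cons, haS]
  have e2 : sub (insert a S) (u ++ [(a, r, o), (a, !r, !o)] ++ v) =
      sub (insert a S) u ++ [(a, r, o), (a, !r, !o)] ++ sub (insert a S) v := by
    simp [sub_append, sub_cons]
  rw [e1, e2, f_adj hP _ _ (a, r, o) (a, !r, !o) rfl, add_zero]

theorem vr1 : VR1Stmt := by
  intro u v a r o hg
  exact ⟨vr1P (by decide) u v a r o hg, vr1P (by decide) u v a r o hg⟩

end Pool.Agent.ZOL.H40
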