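import Pool.Agent.Helper40_ZOL.Kit
import Pool.Agent.Helper40_ZOL.VQ
import Pool.Agent.Helper40_ZOL.VAdd
import Pool.Agent.Helper40_ZOL.VR1
import Pool.Agent.Helper40_ZOL.Rel
import Pool.Agent.Helper40_ZOL.Grow2

namespace Pool.Agent.ZOL.H40

open Finset

/-- `Gr d` is a direct summand of `Gr e`, in terms of maps of `ZK`. -/
def Summ (d e : ℕ) : Prop :=
  ∃ i r : ZK →+ ZK, (∀ x ∈ F d, i x ∈ F e) ∧ (∀ x ∈ F (d + 1), i x ∈ F (e + 1)) ∧
    (∀ x ∈ F e, r x ∈ F d) ∧ (∀ x ∈ F (e + 1), r x ∈ F (d + 1)) ∧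
    (∀ x ∈ F d, r (i x) - x ∈ F (d + 1))

theorem Summ.trans {d e g : ℕ} (h1 : Summ d e) (h2 : Summ e g) : Summ d g := by
  obtain ⟨i, r, a1, a2, a3, a4, a5⟩ := h1
  obtain ⟨i', r', b1, b2, b3, b4, b5⟩ := h2
  refine ⟨i'.comp i, r.comp r', fun x hx => b1 _ (a1 x hx), fun x hx => b2 _ (a2 x hx),
    fun x hx => a3 _ (b3 x hx), fun x hx => a4 _ (b4 x hx), fun x hx => ?_⟩
  simp only [AddMonoidHom.comp_apply]
  have h3 := b5 (i x) (a1 x hx)
  have h4 := a4 _ h3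
  rw [map_sub] at h4
  have h5 := a5 x hx
  have := (F (d + 1)).add_mem h4 h5
  rwa [sub_add_sub_cancel] at this

/-- the product with a fixed diagram -/
noncomputable def mulK (hg : MGauStmt) (hp : MPlaStmt) (hs : MStepStmt) (E : Word)
    (hE : IsGauss E ∧ Planar (shadow E)) : Knot → Knot :=
  Quot.map (fun D : Diagram => (⟨mul D.1 E, hg _ _ D.2.1 hE.1, hp _ _ D.2.1 hE.1 D.2.2 hE.2⟩ : Diagram))
    (fun a b h => hs a.1 b.1 E h)

/-- the knot of a diagram -/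
def toK (D : Diagram) : Knot := Quot.mk _ D

theorem toK_surj (k : Knot) : ∃ D : Diagram, toK D = k := Quot.exists_rep k

theorem kn_eq {w : Word} (h : IsGauss w ∧ Planar (shadow w)) :
    kn w = Finsupp.single (toK (⟨w, h⟩ : Diagram)) 1 := by
  rw [kn, dif_pos h]; rfl

theorem lin_single {K : Type} (g : K → K) (k : K) (n : ℤ) :
    lin g (Finsupp.single k n) = Finsupp.single (g k) n := Finsupp.mapDomain_single

theorem lin_kn (hg : MGauStmt) (hp : MPlaStmt) (hs : MStepStmt) (E : Word)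
    (hE : IsGauss E ∧ Planar (shadow E)) {w : Word} (h1 : IsGauss w) (h2 : Planar (shadow w)) :
    lin (mulK hg hp hs E hE) (kn w) = kn (mul w E) := by
  rw [kn_eq ⟨h1, h2⟩, kn_eq ⟨hg _ _ h1 hE.1, hp _ _ h1 hE.1 h2 hE.2⟩, lin_single]
  rfl

/-- two additive maps which agree on the `kn w` are equal -/
theorem hom_ext {M M' : ZK →+ ZK}
    (h : ∀ w, IsGauss w → Planar (shadow w) → M (kn w) = M' (kn w)) : M = M' := by
  apply Finsupp.addHom_ext
  intro k n
  obtain ⟨D, rfl⟩ := toK_surj k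
  have h1 := h D.1 D.2.1 D.2.2
  rw [kn_eq D.2] at h1
  have e : (Finsupp.single (toK D) n : ZK) = n • (Finsupp.single (toK D) 1 : ZK) := by
    simp
  rw [e, map_zsmul, map_zsmul]
  exact congrArg (fun z => n • z) h1

theorem op_of (halg : AlgStmt) (hth : ThStmt) (hant : FAntStmt) (hzero : FZeroStmt)
    (hvd : VDegStmt) (hg : MGauStmt) (hp : MPlaStmt) (hs : MStepStmt) (hgf : GFlipStmt)
    (hfm : FMulStmt) (hfc : FChStmt)
    (P : List (List (ℕ × Bool))) (m : ℕ) (hm : 1 ≤ m) (hP : ∀ p ∈ P, p.length = 2 * m)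
    (v : Knot → ℤ) (hv : ∀ D : Diagram, v (Quot.mk _ D) = V P D.1)
    (hadd : ∀ w E : Word, IsGauss w → IsGauss E → V P (mul w E) = V P w + V P E)
    (E : Word) (hE : IsGauss E ∧ Planar (shadow E)) (C S₀ : Finset ℕ) (hC : C ⊆ labels E)
    (hCm : C.card = m) (hS₀ : S₀ ⊆ labels E)
    (hunk : ∀ w : Word, IsGauss w → Planar (shadow w) → kn (mul w (flip S₀ E)) = kn w)
    (hval : ∑ S ∈ C.powerset, (-1 : ℤ) ^ S.card * V P (flip S E) = 1) :
    ∃ I : ZK →+ ZK, (∀ d, ∀ x ∈ F d, I x ∈ F (d + m)) ∧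
      (∀ d, ∃ R : ZK →+ ZK, (∀ x ∈ F (d + m), R x ∈ F d) ∧
        (∀ x ∈ F (d + m + 1), R x ∈ F (d + 1)) ∧ ∀ x ∈ F d, R (I x) - x ∈ F (d + 1)) ∧
      (∀ j d, ∀ x ∈ F d, theta v (j + 1) (I x) - I (theta v (j + 1) x) - theta v j x ∈
        F (d + m + 1 - m * (j + 1))) ∧
      (∀ (P' : List (List (ℕ × Bool))) (m' : ℕ) (v' : Knot → ℤ), m + 1 ≤ m' →
        (∀ p ∈ P', p.length = 2 * m') → (∀ D : Diagram, v' (Quot.mk _ D) = V P' D.1) →
        (∀ w E : Word, IsGauss w → IsGauss E → V P' (mul w E) = V P' w + V P' E) →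
        ∀ j d, ∀ x ∈ F d, theta v' j (I x) - I (theta v' j x) ∈ F (d + m + 1 - m' * j)) := by
  have hEf : ∀ S : Finset ℕ, IsGauss (flip S E) ∧ Planar (shadow (flip S E)) := fun S =>
    ⟨hgf E S hE.1, by rw [shadow_flip]; exact hE.2⟩
  let M : Finset ℕ → Knot → Knot := fun S => mulK hg hp hs (flip S E) (hEf S)
  have hM : ∀ S w, IsGauss w → Planar (shadow w) → lin (M S) (kn w) = kn (mul w (flip S E)) :=
    fun S w h1 h2 => lin_kn hg hp hs _ (hEf S) h1 h2
  have hME : ∀ w, IsGauss w → Planar (shadow w) →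
      lin (mulK hg hp hs E hE) (kn w) = kn (mul w E) :=
    fun w h1 h2 => lin_kn hg hp hs E hE h1 h2
  have hid : lin (M S₀) = AddMonoidHom.id ZK := by
    apply hom_ext
    intro w h1 h2
    rw [hM S₀ w h1 h2, hunk w h1 h2]; rfl
  have hcard : ∀ (d : ℕ), ∀ x ∈ F d,
      (∑ S ∈ C.powerset, (-1 : ℤ) ^ S.card • lin (M S) x) ∈ F (d + m) := by
    intro d x hx
    have := hfm E C (fun S => lin (M S)) hE.1 hE.2 hC (fun S _ w h1 h2 => hM S w h1 h2) d x hx
    rwa [hCm] at this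
  have hdiff : ∀ S ∈ C.powerset, ∀ (d : ℕ), ∀ x ∈ F d, lin (M S) x - x ∈ F (d + 1) := by
    intro S hS d x hx
    have h1 := hfc E S (lin (mulK hg hp hs E hE)) (lin (M S)) hE.1 hE.2
      ((Finset.mem_powerset.1 hS).trans hC) hME (hM S) d x hx
    have h2 := hfc E S₀ (lin (mulK hg hp hs E hE)) (lin (M S₀)) hE.1 hE.2 hS₀ hME (hM S₀) d x hx
    rw [hid, AddMonoidHom.id_apply] at h2
    have := (F (d + 1)).sub_mem h2 h1
    have e : lin (mulK hg hp hs E hE) x - x - (lin (mulK hg hp hs E hE) x - lin (M S) x) =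
        lin (M S) x - x := by abel
    rwa [e] at this
  have hsum : ∀ x : ZK, (∑ i : {S // S ∈ C.powerset}, (-1 : ℤ) ^ i.1.card • lin (M i.1) x) =
      ∑ S ∈ C.powerset, (-1 : ℤ) ^ S.card • lin (M S) x := by
    intro x
    exact Finset.sum_coe_sort C.powerset (fun S => (-1 : ℤ) ^ S.card • lin (M S) x)
  have hadds : ∀ (P' : List (List (ℕ × Bool))) (v' : Knot → ℤ),
      (∀ D : Diagram, v' (Quot.mk _ D) = V P' D.1) →
      (∀ w E : Word, IsGauss w → IsGauss E → V P' (mul w E) = V P' w + V P' E) →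
      ∀ (i : {S // S ∈ C.powerset}) (k : Knot), v' (M i.1 k) = v' k + V P' (flip i.1 E) := by
    intro P' v' hv' hadd' i k
    obtain ⟨D, rfl⟩ := toK_surj k
    exact (hv' ⟨mul D.1 (flip i.1 E), hg _ _ D.2.1 (hEf i.1).1,
        hp _ _ D.2.1 (hEf i.1).1 D.2.2 (hEf i.1).2⟩).trans
      ((hadd' _ _ D.2.1 (hEf i.1).1).trans
        (congrArg (fun z => z + V P' (flip i.1 E)) (hv' D).symm))
  have hse : (∑ i : {S // S ∈ C.powerset}, (-1 : ℤ) ^ i.1.card * V P (flip i.1 E)) = 1 :=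
    (Finset.sum_coe_sort C.powerset
      (fun S => (-1 : ℤ) ^ S.card * V P (flip S E))).trans hval
  have hthv : ∀ j d, ∀ x ∈ F d, theta v j x ∈ F (d - m * j) :=
    fun j d x hx => hth v (V P) m hv (fun w hw => hvd P m hP w hw) j d x hx
  let I : ZK →+ ZK := ∑ S ∈ C.powerset, (-1 : ℤ) ^ S.card • lin (M S)
  have hI : ∀ x, I x = ∑ S ∈ C.powerset, (-1 : ℤ) ^ S.card • lin (M S) x := by
    intro x
    simp only [I, AddMonoidHom.finsetSum_apply]
    rfl
  refine ⟨I, ?_, ?_, ?_, ?_⟩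
  · intro d x hx; rw [hI]; exact hcard d x hx
  · intro d
    obtain ⟨R, h1, h2, h3⟩ := halg Knot {S // S ∈ C.powerset} F v (fun i => M i.1)
      (fun i => (-1 : ℤ) ^ i.1.card) (fun i => V P (flip i.1 E)) m hm hant hzero
      (hadds P v hv hadd) hthv (by intro d x hx; rw [hsum]; exact hcard d x hx)
      (fun i d x hx => hdiff i.1 i.2 d x hx) hse d
    refine ⟨R, h1, h2, fun x hx => ?_⟩
    have := h3 x hx
    rw [hsum] at this
    rwa [hI]
  · intro j d x hx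
    have := rel1 {S // S ∈ C.powerset} F v (fun i => M i.1)
      (fun i => (-1 : ℤ) ^ i.1.card) (fun i => V P (flip i.1 E)) m hm
      (antitone_nat_of_succ_le hant) (hadds P v hv hadd) hthv
      (fun i d x hx => hdiff i.1 i.2 d x hx) hse j d x hx
    rw [hsum, hsum] at this
    rwa [hI, hI]
  · intro P' m' v' hmm hP' hv' hadd' j d x hx
    have := rel0 {S // S ∈ C.powerset} F v' (fun i => M i.1)
      (fun i => (-1 : ℤ) ^ i.1.card) (fun i => V P' (flip i.1 E)) m m' hmm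
      (antitone_nat_of_succ_le hant) (hadds P' v' hv' hadd')
      (fun j d x hx => hth v' (V P') m' hv' (fun w hw => hvd P' m' hP' w hw) j d x hx)
      (fun i d x hx => hdiff i.1 i.2 d x hx) j d x hx
    rw [hsum, hsum] at this
    rwa [hI, hI]

/-- everything together: the two operators -/
theorem ops_all (halg : AlgStmt) (hth : ThStmt) (hant : FAntStmt) (hzero : FZeroStmt)
    (hvd : VDegStmt) (hg : MGauStmt) (hp : MPlaStmt) (hs : MStepStmt) (hgf : GFlipStmt)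
    (hfm : FMulStmt) (hfc : FChStmt) (hren : VRenStmt) (hadd : VAddStmt) (h1 : VR1Stmt)
    (h2a : VR2aStmt) (h2b : VR2bStmt) (h3a : VR3aStmt) (h3b : VR3bStmt) (hunk : UnkStmt)
    (hval : ValStmt) : ∃ (A B : ZK →+ ZK) (Θ : ℕ → ZK →+ ZK), Ops F A B Θ ∧
      (∀ d, Summ d (d + 2)) ∧ (∀ d, Summ d (d + 3)) := by
  obtain ⟨v2, hv2⟩ := v2_exists hren h1 h2a h2b h3a
  obtain ⟨v3, hv3⟩ := v3_exists hren h1 h2a h2b h3b
  obtain ⟨hT, h8, hk⟩ := hunk
  obtain ⟨A, a1, a2, -, a4⟩ := op_of halg hth hant hzero hvd hg hp hs hgf hfm hfc P2 2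
    (by norm_num) P2_length v2 hv2 (fun w E hw hE => (hadd w E hw hE).1) trefoil hT {0, 1} {1}
    (by decide) (by decide) (by decide) (fun w hw hw' => (hk w hw hw').1) hval.1
  obtain ⟨B, b1, b2, b3, -⟩ := op_of halg hth hant hzero hvd hg hp hs hgf hfm hfc P3 3
    (by norm_num) P3_length v3 hv3 (fun w E hw hE => (hadd w E hw hE).2) eight h8 {0, 1, 2} {1}
    (by decide) (by decide) (by decide) (fun w hw hw' => (hk w hw hw').2) hval.2
  refine ⟨A, B, fun j => theta v3 j, ⟨hant, a1, ?_, b1, fun x => H34.theta_zero v3 x, ?_, ?_, ?_⟩,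
    ?_, ?_⟩
  · intro d x hx hAx
    obtain ⟨R, r1, r2, r3⟩ := a2 d
    have := sub_mem (r2 _ hAx) (r3 x hx)
    rwa [sub_sub_cancel] at this
  · intro j d x hx
    exact hth v3 (V P3) 3 hv3 (fun w hw => hvd P3 3 P3_length w hw) j d x hx
  · intro j d x hx
    exact a4 P3 3 v3 (by norm_num) P3_length hv3 (fun w E hw hE => (hadd w E hw hE).2) j d x hx
  · intro j d x hx
    exact b3 j d x hx
  · intro d
    obtain ⟨R, r1, r2, r3⟩ := a2 d
    exact ⟨A, R, a1 d, fun x hx => by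
      have := a1 (d + 1) x hx
      rwa [show d + 1 + 2 = d + 2 + 1 by ring] at this, r1, r2, r3⟩
  · intro d
    obtain ⟨R, r1, r2, r3⟩ := b2 d
    exact ⟨B, R, b1 d, fun x hx => by
      have := b1 (d + 1) x hx
      rwa [show d + 1 + 3 = d + 3 + 1 by ring] at this, r1, r2, r3⟩

theorem summ_all (s2 : ∀ d, Summ d (d + 2)) (s3 : ∀ d, Summ d (d + 3)) (d e : ℕ)
    (hde : d + 2 ≤ e) : Summ d e := by
  obtain ⟨k, rfl⟩ := Nat.exists_eq_add_of_le hde
  clear hde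
  have key : ∀ k, Summ d (d + 2 + k) ∧ Summ d (d + 2 + (k + 1)) := by
    intro k
    induction k with
    | zero => exact ⟨s2 d, s3 d⟩
    | succ k ih =>
      refine ⟨ih.2, ?_⟩
      have := ih.1.trans (s2 _)
      rwa [show d + 2 + k + 2 = d + 2 + (k + 1 + 1) by ring] at this
  exact (key k).1

/-- `p`-torsion in one degree gives `(Z/p)^N` in all large degrees, with linear growth -/
theorem grow_gr {A B : ZK →+ ZK} {Θ : ℕ → ZK →+ ZK} (h : Ops F A B Θ) (hzero : FZeroStmt)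
    {p : ℕ} (hp : p.Prime) (hbad : ∃ d, ¬ NoT F p d) :
    ∃ e, ∀ N d, e + 6 * N ≤ d →
      ∃ i : (Fin N → ZMod p) →+ Gr d, Function.Injective i := by
  obtain ⟨e, he⟩ := h.grow hzero hp hbad
  refine ⟨e, fun N d hd => ?_⟩
  obtain ⟨y, y1, y2, y3⟩ := he N d hd
  let q : Fin N → Gr d := fun j =>
    QuotientAddGroup.mk' ((F (d + 1)).addSubgroupOf (F d)) ⟨y j.1, y1 j.1 j.2⟩
  apply embed q
  · intro j
    have : (p : ℤ) • q j = QuotientAddGroup.mk' ((F (d + 1)).addSubgroupOf (F d))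
        ((p : ℤ) • (⟨y j.1, y1 j.1 j.2⟩ : F d)) := (map_zsmul _ _ _).symm
    rw [this]
    refine (QuotientAddGroup.eq_zero_iff _).2 ?_
    rw [AddSubgroup.mem_addSubgroupOf]
    exact y2 j.1 j.2
  · intro c hc j
    have e1 : ∑ j : Fin N, c j • q j = QuotientAddGroup.mk' ((F (d + 1)).addSubgroupOf (F d))
        (∑ j : Fin N, c j • (⟨y j.1, y1 j.1 j.2⟩ : F d)) := by
      rw [map_sum]
      exact Finset.sum_congr rfl fun j _ => (map_zsmul _ _ _).symm
    rw [e1] at hc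
    have h2 := (QuotientAddGroup.eq_zero_iff _).1 hc
    rw [AddSubgroup.mem_addSubgroupOf] at h2
    have h3 : ((∑ j : Fin N, c j • (⟨y j.1, y1 j.1 j.2⟩ : F d) : F d) : ZK) =
        ∑ j ∈ range N, (if hj : j < N then c ⟨j, hj⟩ else 0) • y j := by
      rw [AddSubgroup.val_finsetSum, Finset.sum_range]
      refine Finset.sum_congr rfl fun j _ => ?_
      rw [dif_pos j.2]
      rfl
    rw [h3] at h2
    have h4 := y3 _ h2 j.1 j.2
    rwa [dif_pos j.2] at h4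

end Pool.Agent.ZOL.H40
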