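import Mathlib

/-!
# Oriented long knots and the Vassiliev filtration (MP_a7acc9_gt)

Model of oriented long knots (long knots in 3-space are the same as oriented knots in the
3-sphere): planar signed Gauss words modulo Reidemeister moves.  A long knot diagram in the
oriented plane is recorded by the list of its passages through crossings; such a list determines
the diagram up to isotopy of the plane.

* `IsGauss`: every crossing is passed twice, from opposite sides, once over and once under.
* `Planar`: the word is the word of a diagram in the plane.  This is the criterion of Cairns and
  Elton (The planarity problem for signed Gauss words, 1993): the loops at the crossings and the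
  whole curve generate the first homology of the ribbon surface, which has genus `0` exactly when
  all their algebraic intersection numbers vanish.
* `Step`: the Reidemeister moves (all variants of the first, second and third move).
* `Knot`, `ZK`, `F d`: knots, the free abelian group on knots, and the Vassiliev filtration:
  `F d` is generated by the alternating sums over `d` chosen crossings of a diagram, which are up
  to sign the values of the singular knots with `d` double points.
-/

namespace Pool.Agent.ZOL

/-- A letter of a Gauss word: `(crossing, side, over)`.  The letter records one passage of the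
long knot through a crossing.  `side = true` means that the other strand crosses this one from
right to left, `side = false` that it crosses from left to right.  `over = true` means that
this passage is the overpass. -/
abbrev Letter := ℕ × Bool × Bool

/-- A word: the list of the passages met along an oriented long knot diagram. -/
abbrev Word := List Letter

/-- The other passage of the same crossing. -/
def bar (l : Letter) : Letter := (l.1, !l.2.1, !l.2.2)

/-- The set of crossings of a word. -/
def labels (w : Word) : Finset ℕ := (w.map Prod.fst).toFinset

/-- The part of a word which lies over a set `S` of crossings. -/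
def sub (S : Finset ℕ) (w : Word) : Word := w.filter (fun l => decide (l.1 ∈ S))

/-- A Gauss word: every crossing is passed exactly twice, once on each side of the crossing and
once over, once under. -/
def IsGauss (w : Word) : Prop := ∀ a ∈ labels w, ∃ l : Letter, sub {a} w = [l, bar l]

/-- The shadow of a word: over and under information is forgotten. -/
abbrev Shadow := List (ℕ × Bool)

def shadow (w : Word) : Shadow := w.map (fun l => (l.1, l.2.1))

/-- `+1` if the other strand crosses from right to left, `-1` otherwise. -/
def eps (x : ℕ × Bool) : ℤ := if x.2 then 1 else -1

/-- The passages strictly between the two passages of the crossing `a`. -/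
def between (a : ℕ) (v : Shadow) : Shadow :=
  ((v.dropWhile (fun x => decide (x.1 ≠ a))).tail).takeWhile (fun x => decide (x.1 ≠ a))

/-- Twice the multiplicity with which the loop of `v` based at the crossing `a` runs through the
passage `x`: it is `2` for the passages strictly between the two passages of `a`,
it is `1` (the loop turns) at the two passages of `a`, and `0` elsewhere. -/
def wt (a : ℕ) (v : Shadow) (x : ℕ × Bool) : ℤ :=
  if x.1 = a then 1 else if x ∈ between a v then 2 else 0

/-- Planarity of a shadow (criterion of Cairns and Elton): all the algebraic intersection numbers
of the loops at the crossings with the whole curve, and with each other, vanish. -/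
def Planar (v : Shadow) : Prop :=
  (∀ a : ℕ, ((between a v).map eps).sum = 0) ∧
  ∀ a b : ℕ, (v.map (fun x => eps x * wt a v x * wt b v (x.1, !x.2))).sum = 0

/-- Change of the crossings in `S`. -/
def flip (S : Finset ℕ) (w : Word) : Word :=
  w.map (fun l => if l.1 ∈ S then (l.1, l.2.1, !l.2.2) else l)

/-- Renaming of the crossings. -/
def relab (σ : ℕ → ℕ) (w : Word) : Word := w.map (fun l => (σ l.1, l.2))

/-- The two crossings on the top strand in a triangle.  Here `a` is the crossing of
the top and the middle strand, `b` of the top and the bottom strand, `c` of the middle and
the bottom strand; the booleans `t, m, d` give the directions of the three strands and `e` the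
chirality. -/
def topPair (a b : ℕ) (t m d e : Bool) : Word :=
  if t then [(a, (t == m) == e, true), (b, (t == d) == e, true)]
  else [(b, (t == d) == e, true), (a, (t == m) == e, true)]

/-- The two crossings on the middle strand in a triangle. -/
def midPair (a c : ℕ) (t m d e : Bool) : Word :=
  if m then [(a, !((t == m) == e), false), (c, (m == d) == e, true)]
  else [(c, (m == d) == e, true), (a, !((t == m) == e), false)]

/-- The two crossings on the bottom strand in a triangle. -/
def botPair (b c : ℕ) (t m d e : Bool) : Word :=
  if d then [(b, !((t == d) == e), false), (c, !((m == d) == e), false)]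
  else [(c, !((m == d) == e), false), (b, !((t == d) == e), false)]

/-- One Reidemeister move (or a renaming of crossings) between words. -/
inductive Step : Word → Word → Prop
  | rename (w : Word) (σ : ℕ → ℕ) (h : Set.InjOn σ (labels w : Set ℕ)) :
      Step w (relab σ w)
  | r1 (u v : Word) (a : ℕ) (r o : Bool) :
      Step (u ++ [(a, r, o), (a, !r, !o)] ++ v) (u ++ v)
  | r2a (u v z : Word) (a b : ℕ) (r o : Bool) :
      Step (u ++ [(a, r, o), (b, !r, o)] ++ v ++ [(a, !r, !o), (b, r, !o)] ++ z) (u ++ v ++ z)
  | r2b (u v z : Word) (a b : ℕ) (r o : Bool) :
      Step (u ++ [(a, r, o), (b, !r, o)] ++ v ++ [(b, r, !o), (a, !r, !o)] ++ z) (u ++ v ++ z)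
  | r3 (u₀ u₁ u₂ u₃ s₁ s₂ s₃ : Word) (a b c : ℕ) (t m d e : Bool)
      (h : [s₁, s₂, s₃].Perm
        [topPair a b t m d e, midPair a c t m d e, botPair b c t m d e]) :
      Step (u₀ ++ s₁ ++ u₁ ++ s₂ ++ u₂ ++ s₃ ++ u₃)
        (u₀ ++ s₁.reverse ++ u₁ ++ s₂.reverse ++ u₂ ++ s₃.reverse ++ u₃)

/-- A diagram of a long knot: a planar Gauss word. -/
def Diagram := {w : Word // IsGauss w ∧ Planar (shadow w)}

/-- Oriented long knots: diagrams modulo Reidemeister moves and renaming of crossings. -/
def Knot := Quot (fun x y : Diagram => Step x.1 y.1)

/-- The free abelian group on the set of long knots. -/
abbrev ZK := Knot →₀ ℤ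

/-- The basis element of the knot of a word (`0` if the word is not a diagram). -/
noncomputable def kn (w : Word) : ZK := by
  classical
  exact if h : IsGauss w ∧ Planar (shadow w) then
    Finsupp.single (Quot.mk _ (⟨w, h⟩ : Diagram)) 1 else 0

/-- The alternating sum over the changes of the crossings in `C`, up to sign the value of the
singular knot obtained from `w` by making the crossings in `C` double points. -/
noncomputable def alt (C : Finset ℕ) (w : Word) : ZK :=
  ∑ S ∈ C.powerset, (-1 : ℤ) ^ S.card • kn (flip S w)

/-- The Vassiliev filtration. -/
noncomputable def F (d : ℕ) : AddSubgroup ZK :=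
  AddSubgroup.closure {x | ∃ (w : Word) (C : Finset ℕ), IsGauss w ∧ Planar (shadow w) ∧
    C ⊆ labels w ∧ C.card = d ∧ x = alt C w}

end Pool.Agent.ZOL
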