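import Pool.Agent.Helper40_ZOL.Defs

/-!
# The graded pieces of the Vassiliev filtration
-/

namespace Pool.Agent.ZOL

/-- The graded piece `F_d / F_(d+1)` of the Vassiliev filtration of the group `ZK`. -/
def Graded (d : ℕ) : Type := F d ⧸ (F (d + 1)).addSubgroupOf (F d)

/-- The quotient group structure. -/
noncomputable instance (d : ℕ) : AddCommGroup (Graded d) :=
  QuotientAddGroup.Quotient.addCommGroup ((F (d + 1)).addSubgroupOf (F d))

/-- `A` is isomorphic to a direct summand of `B`. -/
def IsSummand (A B : Type) [AddCommGroup A] [AddCommGroup B] : Prop :=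
  ∃ (i : A →+ B) (r : B →+ A), ∀ x : A, r (i x) = x

/-- The group `A` is torsion free. -/
def TorsionFree (A : Type) [AddCommGroup A] : Prop :=
  ∀ (n : ℤ) (x : A), n ≠ 0 → n • x = 0 → x = 0

/-- `x` is killed by an element of `S`. -/
def KilledBy (S : Submonoid ℤ) {A : Type} [AddCommGroup A] (x : A) : Prop :=
  ∃ n ∈ S, n • x = 0

/-- `A` embeds into `B`. -/
def Embeds (A B : Type) [AddCommGroup A] [AddCommGroup B] : Prop :=
  ∃ i : A →+ B, Function.Injective i

end Pool.Agent.ZOL
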