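import Mathlib

/-!
# ZOL: growth of torsion (pure algebra)
-/

namespace Pool.Agent.ZOL.H40

open Finset

variable {X : Type} [AddCommGroup X]

/-- the graded pieces of `G` in degree `d` have no `p`-torsion -/
def NoT (G : ℕ → AddSubgroup X) (p : ℤ) (d : ℕ) : Prop :=
  ∀ x ∈ G d, p • x ∈ G (d + 1) → x ∈ G (d + 1)

/-- data of the two operators -/
structure Ops (G : ℕ → AddSubgroup X) (A B : X →+ X) (Θ : ℕ → X →+ X) : Prop where
  anti : ∀ d, G (d + 1) ≤ G d
  hA : ∀ d, ∀ x ∈ G d, A x ∈ G (d + 2)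
  hAinj : ∀ d, ∀ x ∈ G d, A x ∈ G (d + 3) → x ∈ G (d + 1)
  hB : ∀ d, ∀ x ∈ G d, B x ∈ G (d + 3)
  hΘ0 : ∀ x, Θ 0 x = x
  hΘ : ∀ j d, ∀ x ∈ G d, Θ j x ∈ G (d - 3 * j)
  hΘA : ∀ j d, ∀ x ∈ G d, Θ j (A x) - A (Θ j x) ∈ G (d + 3 - 3 * j)
  hΘB : ∀ j d, ∀ x ∈ G d, Θ (j + 1) (B x) - B (Θ (j + 1) x) - Θ j x ∈ G (d + 4 - 3 * (j + 1))

variable {G : ℕ → AddSubgroup X} {A B : X →+ X} {Θ : ℕ → X →+ X}

theorem Ops.mono (h : Ops G A B Θ) : Antitone G := antitone_nat_of_succ_le h.anti

/-- `x` is killed by all derivations, in degree `e` -/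
def Cl (G : ℕ → AddSubgroup X) (Θ : ℕ → X →+ X) (e : ℕ) (x : X) : Prop :=
  x ∈ G e ∧ ∀ j, Θ (j + 1) x ∈ G (e + 1 - 3 * (j + 1))

theorem Ops.clA (h : Ops G A B Θ) {e : ℕ} {x : X} (hx : Cl G Θ e x) : Cl G Θ (e + 2) (A x) := by
  refine ⟨h.hA _ _ hx.1, fun j => ?_⟩
  have h1 := h.hΘA (j + 1) e x hx.1
  have h2 := h.hA _ _ (hx.2 j)
  have h3 : Θ (j + 1) (A x) = (Θ (j + 1) (A x) - A (Θ (j + 1) x)) + A (Θ (j + 1) x) := by abel
  rw [h3]
  exact add_mem (h.mono (by omega) h1) (h.mono (by omega) h2)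

theorem Ops.clAn (h : Ops G A B Θ) {e : ℕ} {x : X} (hx : Cl G Θ e x) (a : ℕ) :
    Cl G Θ (e + 2 * a) (A^[a] x) := by
  induction a with
  | zero => simpa using hx
  | succ a ih =>
    rw [Function.iterate_succ_apply']
    exact h.clA ih

theorem Ops.injAn (h : Ops G A B Θ) {e : ℕ} {x : X} (hx : x ∈ G e) (a : ℕ)
    (h1 : A^[a] x ∈ G (e + 2 * a + 1)) : x ∈ G (e + 1) := by
  induction a with
  | zero => simpa using h1
  | succ a ih =>
    apply ih
    rw [Function.iterate_succ_apply'] at h1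
    have h2 : A^[a] x ∈ G (e + 2 * a) := by
      clear ih h1
      induction a with
      | zero => simpa using hx
      | succ a ih => rw [Function.iterate_succ_apply']; exact h.hA _ _ ih
    exact h.hAinj _ _ h2 h1

/-- `Θ j` on `B^b z` for `z` killed by the derivations -/
theorem Ops.theta_B (h : Ops G A B Θ) {e : ℕ} {z : X} (hz : Cl G Θ e z) (b : ℕ) :
    B^[b] z ∈ G (e + 3 * b) ∧
    (∀ j, b < j → Θ j (B^[b] z) ∈ G (e + 3 * b + 1 - 3 * j)) ∧
    Θ b (B^[b] z) - z ∈ G (e + 1) := by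
  induction b with
  | zero =>
    refine ⟨by simpa using hz.1, ?_, by simp [h.hΘ0]⟩
    intro j hj
    obtain ⟨k, rfl⟩ := Nat.exists_eq_succ_of_ne_zero (Nat.pos_iff_ne_zero.1 hj)
    simpa using hz.2 k
  | succ b ih =>
    obtain ⟨i1, i2, i3⟩ := ih
    rw [Function.iterate_succ_apply']
    refine ⟨h.mono (by omega) (h.hB _ _ i1), ?_, ?_⟩
    · intro j hj
      obtain ⟨k, rfl⟩ := Nat.exists_eq_succ_of_ne_zero (show j ≠ 0 by omega)
      have h1 := h.hΘB k _ _ i1
      have h2 := i2 k (by omega)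
      have h3 := h.hB _ _ (i2 (k + 1) (by omega))
      have h4 : Θ (k + 1) (B (B^[b] z)) =
          (Θ (k + 1) (B (B^[b] z)) - B (Θ (k + 1) (B^[b] z)) - Θ k (B^[b] z)) +
          B (Θ (k + 1) (B^[b] z)) + Θ k (B^[b] z) := by abel
      simp only [Nat.succ_eq_add_one]
      rw [h4]
      exact add_mem (add_mem (h.mono (by omega) h1) (h.mono (by omega) h3))
        (h.mono (by omega) h2)
    · have h1 := h.hΘB b _ _ i1
      have h3 := h.hB _ _ (i2 (b + 1) (by omega))
      have h4 : Θ (b + 1) (B (B^[b] z)) - z =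
          (Θ (b + 1) (B (B^[b] z)) - B (Θ (b + 1) (B^[b] z)) - Θ b (B^[b] z)) +
          B (Θ (b + 1) (B^[b] z)) + (Θ b (B^[b] z) - z) := by abel
      rw [h4]
      exact add_mem (add_mem (h.mono (by omega) h1) (h.mono (by omega) h3)) i3

/-- independence of the elements `B^(b₀+2j) A^(a-3j) x`, `j < N` -/
theorem Ops.indep (h : Ops G A B Θ) {p : ℤ} {e : ℕ} {x : X} (hx : Cl G Θ e x)
    (hpx : p • x ∈ G (e + 1)) (hcop : ∀ c : ℤ, c • x ∈ G (e + 1) → p ∣ c) (b₀ a : ℕ) :
    ∀ N : ℕ, 3 * N ≤ a + 3 → ∀ c : ℕ → ℤ,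
      ∑ j ∈ range N, c j • (B^[b₀ + 2 * j] (A^[a - 3 * j] x)) ∈ G (e + 2 * a + 3 * b₀ + 1) →
      ∀ j < N, p ∣ c j := by
  intro N
  induction N with
  | zero => intro _ _ _ j hj; omega
  | succ N ih =>
    intro hN c hc
    have hcl := fun j => h.clAn hx (a - 3 * j)
    have hlast : p ∣ c N := by
      apply hcop
      apply h.injAn ((G e).zsmul_mem hx.1 _) (a - 3 * N)
      have h1 := h.hΘ (b₀ + 2 * N) _ _ hc
      rw [map_sum, Finset.sum_range_succ] at h1
      have h2 : ∑ j ∈ range N, (Θ (b₀ + 2 * N)) (c j • (B^[b₀ + 2 * j] (A^[a - 3 * j] x))) ∈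
          G (e + 2 * (a - 3 * N) + 1) := by
        apply sum_mem
        intro j hj
        have hj := Finset.mem_range.1 hj
        rw [map_zsmul]
        apply zsmul_mem
        have := (h.theta_B (hcl j) (b₀ + 2 * j)).2.1 (b₀ + 2 * N) (by omega)
        exact h.mono (by omega) this
      have h3 := h.mono (show e + 2 * (a - 3 * N) + 1 ≤
        e + 2 * a + 3 * b₀ + 1 - 3 * (b₀ + 2 * N) by omega) h1
      have h4 := sub_mem h3 h2
      rw [add_sub_cancel_left, map_zsmul] at h4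
      have h5 := (h.theta_B (hcl N) (b₀ + 2 * N)).2.2
      have h6 := sub_mem h4 ((G _).zsmul_mem h5 (c N))
      rw [smul_sub, sub_sub_cancel] at h6
      have h7 : A^[a - 3 * N] (c N • x) = c N • A^[a - 3 * N] x := by
        have : ∀ (k : ℕ) (y : X), A^[k] (c N • y) = c N • A^[k] y := by
          intro k
          induction k with
          | zero => intro y; rfl
          | succ k ih => intro y; rw [Function.iterate_succ_apply', ih, map_zsmul,
              Function.iterate_succ_apply']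
        exact this _ _
      rw [h7]
      exact h6
    intro j hj
    rcases Nat.lt_succ_iff_lt_or_eq.1 hj with hj | rfl
    · refine ih (by omega) c ?_ j hj
      rw [Finset.sum_range_succ] at hc
      have h8 : c N • (B^[b₀ + 2 * N] (A^[a - 3 * N] x)) ∈ G (e + 2 * a + 3 * b₀ + 1) := by
        obtain ⟨q, hq⟩ := hlast
        have hpow : ∀ (f : X →+ X) (k : ℕ) (y : X), f^[k] (c N • y) = c N • f^[k] y := by
          intro f k
          induction k with
          | zero => intro y; rfl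
          | succ k ih => intro y; rw [Function.iterate_succ_apply', ih, map_zsmul,
              Function.iterate_succ_apply']
        have hBn : ∀ (k n : ℕ) (y : X), y ∈ G n → B^[k] y ∈ G (n + 3 * k) := by
          intro k
          induction k with
          | zero => intro n y hy; simpa using hy
          | succ k ih => intro n y hy; rw [Function.iterate_succ_apply']; exact h.hB _ _ (ih n y hy)
        have hAn : ∀ (k n : ℕ) (y : X), y ∈ G n → A^[k] y ∈ G (n + 2 * k) := by
          intro k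
          induction k with
          | zero => intro n y hy; simpa using hy
          | succ k ih => intro n y hy; rw [Function.iterate_succ_apply']; exact h.hA _ _ (ih n y hy)
        rw [← hpow, ← hpow]
        have h9 : c N • x ∈ G (e + 1) := by
          rw [hq, mul_comm, mul_smul]; exact zsmul_mem hpx _
        exact h.mono (by omega) (hBn _ _ _ (hAn _ _ _ h9))
      have := sub_mem hc h8
      rwa [add_sub_cancel_right] at this
    · exact hlast

/-- minimal torsion is killed by the derivations -/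
theorem Ops.cl_of_min (h : Ops G A B Θ) {p : ℤ} {e : ℕ} (h0 : G 0 = ⊤)
    (hmin : ∀ d < e, NoT G p d) {x : X} (hx : x ∈ G e) (hpx : p • x ∈ G (e + 1)) :
    Cl G Θ e x := by
  refine ⟨hx, fun j => ?_⟩
  rcases Nat.lt_or_ge e (3 * (j + 1)) with hlt | hge
  · have : e + 1 - 3 * (j + 1) = 0 := by omega
    rw [this, h0]; trivial
  · have h1 := h.hΘ (j + 1) _ _ hx
    have h2 := h.hΘ (j + 1) _ _ hpx
    rw [map_zsmul] at h2
    have e1 : e + 1 - 3 * (j + 1) = (e - 3 * (j + 1)) + 1 := by omega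
    rw [e1] at h2 ⊢
    exact hmin _ (by omega) _ h1 h2

end Pool.Agent.ZOL.H40
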