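import Pool.Agent.Helper40_ZOL.Loc

/-!
# ZOL: DLOC2, DLOC3, DLOC3T with few evaluations
-/

namespace Pool.Agent.ZOL.H40

open Finset H67

/-- all the distributions -/
def dst (r o : Bool) : List (Word × Word × Word × Word) :=
  (([], [], [], []) : Word × Word × Word × Word) :: splits (3, r, o) (bar (3, r, o))

theorem dR_zero (P : List (List (ℕ × Bool))) (hP : ∀ p ∈ P, p.length ≤ 6)
    (s₁ s₂ s₃ l₀ l₁ l₂ l₃ : Word) (h1 : (sub {0, 1, 2} s₁).length = 2)
    (h2 : (sub {0, 1, 2} s₂).length = 2) (h3 : (sub {0, 1, 2} s₃).length = 2)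
    (hl : (l₀ ++ l₁ ++ l₂ ++ l₃).length = 2) : dR P {0, 1, 2} s₁ s₂ s₃ l₀ l₁ l₂ l₃ = 0 := by
  simp only [List.length_append] at hl
  rw [dR, f_eq_zero_of_lt hP, f_eq_zero_of_lt hP, sub_zero]
  · simp only [List.length_append, sub_reverse, List.length_reverse, h1, h2, h3]; omega
  · simp only [List.length_append, h1, h2, h3]; omega

theorem lT (t m d e : Bool) : (sub {0, 1, 2} (topPair 0 1 t m d e)).length = 2 := by
  cases t <;> cases m <;> cases d <;> cases e <;> decide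

theorem lM (t m d e : Bool) : (sub {0, 1, 2} (midPair 0 2 t m d e)).length = 2 := by
  cases t <;> cases m <;> cases d <;> cases e <;> decide

theorem lB (t m d e : Bool) : (sub {0, 1, 2} (botPair 1 2 t m d e)).length = 2 := by
  cases t <;> cases m <;> cases d <;> cases e <;> decide

theorem splits_len {r o : Bool} {q : Word × Word × Word × Word}
    (hq : q ∈ splits (3, r, o) (bar (3, r, o))) :
    (q.1 ++ q.2.1 ++ q.2.2.1 ++ q.2.2.2).length = 2 := by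
  revert q
  cases r <;> cases o <;> decide

/-- bare distributions -/
def bst (o : Bool) : List (List (ℕ × Bool) × List (ℕ × Bool) × List (ℕ × Bool) × List (ℕ × Bool)) :=
  (splits (3, true, o) (bar (3, true, o))).map
    (fun q => (bare q.1, bare q.2.1, bare q.2.2.1, bare q.2.2.2))

theorem mem_bst {r o : Bool} {q : Word × Word × Word × Word}
    (hq : q ∈ splits (3, r, o) (bar (3, r, o))) :
    (bare q.1, bare q.2.1, bare q.2.2.1, bare q.2.2.2) ∈ bst o := by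
  revert q
  cases r <;> cases o <;> decide

theorem x2_TMB : ∀ o : Bool, ∀ q ∈ bst o, XTMB P2 q.1 q.2.1 q.2.2.1 q.2.2.2 = 0 := by
  decide +kernel

theorem x20_TMB : XTMB P2 [] [] [] [] = 0 := by decide +kernel

theorem x30_TMB : XTMB P3 [] [] [] [] = 0 := by decide +kernel

theorem r2_TMB : ∀ t m d e : Bool, dR P2 {0, 1, 2} (topPair 0 1 t m d e) (midPair 0 2 t m d e) (botPair 1 2 t m d e) [] [] [] [] = 0 := by
  decide +kernel

theorem loc2_TMB (t m d e r o : Bool) (q : Word × Word × Word × Word) (hq : q ∈ dst r o) :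
    dloc P2 0 1 2 (topPair 0 1 t m d e) (midPair 0 2 t m d e) (botPair 1 2 t m d e) q.1 q.2.1 q.2.2.1 q.2.2.2 = 0 := by
  rcases List.mem_cons.1 hq with rfl | hq
  · rw [dlocTMB]
    simp only [bare, List.map_nil]
    rw [x20_TMB, r2_TMB, mul_zero, add_zero]
  · rw [dlocTMB, x2_TMB o _ (mem_bst hq), mul_zero, zero_add]
    exact dR_zero P2 (by decide) _ _ _ _ _ _ _ (lT t m d e) (lM t m d e) (lB t m d e)
      (splits_len hq)

theorem x3_TMB : ∀ o : Bool, ∀ q ∈ bst o, XTMB P3 q.1 q.2.1 q.2.2.1 q.2.2.2 = 0 := by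
  decide +kernel

theorem r3_TMB : ∀ t m d e : Bool, dR P3 {0, 1, 2} (topPair 0 1 t m d e) (midPair 0 2 t m d e) (botPair 1 2 t m d e) [] [] [] [] = 0 := by
  decide +kernel

theorem loc3_TMB (t m d e r o : Bool) (q : Word × Word × Word × Word) (hq : q ∈ dst r o) :
    dloc P3 0 1 2 (topPair 0 1 t m d e) (midPair 0 2 t m d e) (botPair 1 2 t m d e) q.1 q.2.1 q.2.2.1 q.2.2.2 = 0 := by
  rcases List.mem_cons.1 hq with rfl | hq
  · rw [dlocTMB]
    simp only [bare, List.map_nil]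
    rw [x30_TMB, r3_TMB, mul_zero, add_zero]
  · rw [dlocTMB, x3_TMB o _ (mem_bst hq), mul_zero, zero_add]
    exact dR_zero P3 (by decide) _ _ _ _ _ _ _ (lT t m d e) (lM t m d e) (lB t m d e)
      (splits_len hq)

theorem x2_TBM : ∀ o : Bool, ∀ q ∈ bst o, XTBM P2 q.1 q.2.1 q.2.2.1 q.2.2.2 = 0 := by
  decide +kernel

theorem x20_TBM : XTBM P2 [] [] [] [] = 0 := by decide +kernel

theorem x30_TBM : XTBM P3 [] [] [] [] = 0 := by decide +kernel

theorem r2_TBM : ∀ t m d e : Bool, dR P2 {0, 1, 2} (topPair 0 1 t m d e) (botPair 1 2 t m d e) (midPair 0 2 t m d e) [] [] [] [] = 0 := by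
  decide +kernel

theorem loc2_TBM (t m d e r o : Bool) (q : Word × Word × Word × Word) (hq : q ∈ dst r o) :
    dloc P2 0 1 2 (topPair 0 1 t m d e) (botPair 1 2 t m d e) (midPair 0 2 t m d e) q.1 q.2.1 q.2.2.1 q.2.2.2 = 0 := by
  rcases List.mem_cons.1 hq with rfl | hq
  · rw [dlocTBM]
    simp only [bare, List.map_nil]
    rw [x20_TBM, r2_TBM, mul_zero, add_zero]
  · rw [dlocTBM, x2_TBM o _ (mem_bst hq), mul_zero, zero_add]
    exact dR_zero P2 (by decide) _ _ _ _ _ _ _ (lT t m d e) (lB t m d e) (lM t m d e)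
      (splits_len hq)

theorem x2_MTB : ∀ o : Bool, ∀ q ∈ bst o, XMTB P2 q.1 q.2.1 q.2.2.1 q.2.2.2 = 0 := by
  decide +kernel

theorem x20_MTB : XMTB P2 [] [] [] [] = 0 := by decide +kernel

theorem x30_MTB : XMTB P3 [] [] [] [] = 0 := by decide +kernel

theorem r2_MTB : ∀ t m d e : Bool, dR P2 {0, 1, 2} (midPair 0 2 t m d e) (topPair 0 1 t m d e) (botPair 1 2 t m d e) [] [] [] [] = 0 := by
  decide +kernel

theorem loc2_MTB (t m d e r o : Bool) (q : Word × Word × Word × Word) (hq : q ∈ dst r o) :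
    dloc P2 0 1 2 (midPair 0 2 t m d e) (topPair 0 1 t m d e) (botPair 1 2 t m d e) q.1 q.2.1 q.2.2.1 q.2.2.2 = 0 := by
  rcases List.mem_cons.1 hq with rfl | hq
  · rw [dlocMTB]
    simp only [bare, List.map_nil]
    rw [x20_MTB, r2_MTB, mul_zero, add_zero]
  · rw [dlocMTB, x2_MTB o _ (mem_bst hq), mul_zero, zero_add]
    exact dR_zero P2 (by decide) _ _ _ _ _ _ _ (lM t m d e) (lT t m d e) (lB t m d e)
      (splits_len hq)

theorem x3_MTB : ∀ o : Bool, ∀ q ∈ bst o, XMTB P3 q.1 q.2.1 q.2.2.1 q.2.2.2 = 0 := by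
  decide +kernel

theorem r3_MTB : ∀ t m d e : Bool, dR P3 {0, 1, 2} (midPair 0 2 t m d e) (topPair 0 1 t m d e) (botPair 1 2 t m d e) [] [] [] [] = 0 := by
  decide +kernel

theorem loc3_MTB (t m d e r o : Bool) (q : Word × Word × Word × Word) (hq : q ∈ dst r o) :
    dloc P3 0 1 2 (midPair 0 2 t m d e) (topPair 0 1 t m d e) (botPair 1 2 t m d e) q.1 q.2.1 q.2.2.1 q.2.2.2 = 0 := by
  rcases List.mem_cons.1 hq with rfl | hq
  · rw [dlocMTB]
    simp only [bare, List.map_nil]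
    rw [x30_MTB, r3_MTB, mul_zero, add_zero]
  · rw [dlocMTB, x3_MTB o _ (mem_bst hq), mul_zero, zero_add]
    exact dR_zero P3 (by decide) _ _ _ _ _ _ _ (lM t m d e) (lT t m d e) (lB t m d e)
      (splits_len hq)

theorem x2_MBT : ∀ o : Bool, ∀ q ∈ bst o, XMBT P2 q.1 q.2.1 q.2.2.1 q.2.2.2 = 0 := by
  decide +kernel

theorem x20_MBT : XMBT P2 [] [] [] [] = 0 := by decide +kernel

theorem x30_MBT : XMBT P3 [] [] [] [] = 0 := by decide +kernel

theorem r2_MBT : ∀ t m d e : Bool, dR P2 {0, 1, 2} (midPair 0 2 t m d e) (botPair 1 2 t m d e) (topPair 0 1 t m d e) [] [] [] [] = 0 := by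
  decide +kernel

theorem loc2_MBT (t m d e r o : Bool) (q : Word × Word × Word × Word) (hq : q ∈ dst r o) :
    dloc P2 0 1 2 (midPair 0 2 t m d e) (botPair 1 2 t m d e) (topPair 0 1 t m d e) q.1 q.2.1 q.2.2.1 q.2.2.2 = 0 := by
  rcases List.mem_cons.1 hq with rfl | hq
  · rw [dlocMBT]
    simp only [bare, List.map_nil]
    rw [x20_MBT, r2_MBT, mul_zero, add_zero]
  · rw [dlocMBT, x2_MBT o _ (mem_bst hq), mul_zero, zero_add]
    exact dR_zero P2 (by decide) _ _ _ _ _ _ _ (lM t m d e) (lB t m d e) (lT t m d e)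
      (splits_len hq)

theorem x3_MBT : ∀ o : Bool, ∀ q ∈ bst o, XMBT P3 q.1 q.2.1 q.2.2.1 q.2.2.2 = 0 := by
  decide +kernel

theorem r3_MBT : ∀ t m d e : Bool, dR P3 {0, 1, 2} (midPair 0 2 t m d e) (botPair 1 2 t m d e) (topPair 0 1 t m d e) [] [] [] [] = 0 := by
  decide +kernel

theorem loc3_MBT (t m d e r o : Bool) (q : Word × Word × Word × Word) (hq : q ∈ dst r o) :
    dloc P3 0 1 2 (midPair 0 2 t m d e) (botPair 1 2 t m d e) (topPair 0 1 t m d e) q.1 q.2.1 q.2.2.1 q.2.2.2 = 0 := by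
  rcases List.mem_cons.1 hq with rfl | hq
  · rw [dlocMBT]
    simp only [bare, List.map_nil]
    rw [x30_MBT, r3_MBT, mul_zero, add_zero]
  · rw [dlocMBT, x3_MBT o _ (mem_bst hq), mul_zero, zero_add]
    exact dR_zero P3 (by decide) _ _ _ _ _ _ _ (lM t m d e) (lB t m d e) (lT t m d e)
      (splits_len hq)

theorem x2_BTM : ∀ o : Bool, ∀ q ∈ bst o, XBTM P2 q.1 q.2.1 q.2.2.1 q.2.2.2 = 0 := by
  decide +kernel

theorem x20_BTM : XBTM P2 [] [] [] [] = 0 := by decide +kernel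

theorem x30_BTM : XBTM P3 [] [] [] [] = 0 := by decide +kernel

theorem r2_BTM : ∀ t m d e : Bool, dR P2 {0, 1, 2} (botPair 1 2 t m d e) (topPair 0 1 t m d e) (midPair 0 2 t m d e) [] [] [] [] = 0 := by
  decide +kernel

theorem loc2_BTM (t m d e r o : Bool) (q : Word × Word × Word × Word) (hq : q ∈ dst r o) :
    dloc P2 0 1 2 (botPair 1 2 t m d e) (topPair 0 1 t m d e) (midPair 0 2 t m d e) q.1 q.2.1 q.2.2.1 q.2.2.2 = 0 := by
  rcases List.mem_cons.1 hq with rfl | hq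
  · rw [dlocBTM]
    simp only [bare, List.map_nil]
    rw [x20_BTM, r2_BTM, mul_zero, add_zero]
  · rw [dlocBTM, x2_BTM o _ (mem_bst hq), mul_zero, zero_add]
    exact dR_zero P2 (by decide) _ _ _ _ _ _ _ (lB t m d e) (lT t m d e) (lM t m d e)
      (splits_len hq)

theorem x3_BTM : ∀ o : Bool, ∀ q ∈ bst o, XBTM P3 q.1 q.2.1 q.2.2.1 q.2.2.2 = 0 := by
  decide +kernel

theorem r3_BTM : ∀ t m d e : Bool, dR P3 {0, 1, 2} (botPair 1 2 t m d e) (topPair 0 1 t m d e) (midPair 0 2 t m d e) [] [] [] [] = 0 := by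
  decide +kernel

theorem loc3_BTM (t m d e r o : Bool) (q : Word × Word × Word × Word) (hq : q ∈ dst r o) :
    dloc P3 0 1 2 (botPair 1 2 t m d e) (topPair 0 1 t m d e) (midPair 0 2 t m d e) q.1 q.2.1 q.2.2.1 q.2.2.2 = 0 := by
  rcases List.mem_cons.1 hq with rfl | hq
  · rw [dlocBTM]
    simp only [bare, List.map_nil]
    rw [x30_BTM, r3_BTM, mul_zero, add_zero]
  · rw [dlocBTM, x3_BTM o _ (mem_bst hq), mul_zero, zero_add]
    exact dR_zero P3 (by decide) _ _ _ _ _ _ _ (lB t m d e) (lT t m d e) (lM t m d e)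
      (splits_len hq)

theorem x2_BMT : ∀ o : Bool, ∀ q ∈ bst o, XBMT P2 q.1 q.2.1 q.2.2.1 q.2.2.2 = 0 := by
  decide +kernel

theorem x20_BMT : XBMT P2 [] [] [] [] = 0 := by decide +kernel

theorem x30_BMT : XBMT P3 [] [] [] [] = 0 := by decide +kernel

theorem r2_BMT : ∀ t m d e : Bool, dR P2 {0, 1, 2} (botPair 1 2 t m d e) (midPair 0 2 t m d e) (topPair 0 1 t m d e) [] [] [] [] = 0 := by
  decide +kernel

theorem loc2_BMT (t m d e r o : Bool) (q : Word × Word × Word × Word) (hq : q ∈ dst r o) :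
    dloc P2 0 1 2 (botPair 1 2 t m d e) (midPair 0 2 t m d e) (topPair 0 1 t m d e) q.1 q.2.1 q.2.2.1 q.2.2.2 = 0 := by
  rcases List.mem_cons.1 hq with rfl | hq
  · rw [dlocBMT]
    simp only [bare, List.map_nil]
    rw [x20_BMT, r2_BMT, mul_zero, add_zero]
  · rw [dlocBMT, x2_BMT o _ (mem_bst hq), mul_zero, zero_add]
    exact dR_zero P2 (by decide) _ _ _ _ _ _ _ (lB t m d e) (lM t m d e) (lT t m d e)
      (splits_len hq)

theorem x3_BMT : ∀ o : Bool, ∀ q ∈ bst o, XBMT P3 q.1 q.2.1 q.2.2.1 q.2.2.2 = 0 := by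
  decide +kernel

theorem r3_BMT : ∀ t m d e : Bool, dR P3 {0, 1, 2} (botPair 1 2 t m d e) (midPair 0 2 t m d e) (topPair 0 1 t m d e) [] [] [] [] = 0 := by
  decide +kernel

theorem loc3_BMT (t m d e r o : Bool) (q : Word × Word × Word × Word) (hq : q ∈ dst r o) :
    dloc P3 0 1 2 (botPair 1 2 t m d e) (midPair 0 2 t m d e) (topPair 0 1 t m d e) q.1 q.2.1 q.2.2.1 q.2.2.2 = 0 := by
  rcases List.mem_cons.1 hq with rfl | hq
  · rw [dlocBMT]
    simp only [bare, List.map_nil]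
    rw [x30_BMT, r3_BMT, mul_zero, add_zero]
  · rw [dlocBMT, x3_BMT o _ (mem_bst hq), mul_zero, zero_add]
    exact dR_zero P3 (by decide) _ _ _ _ _ _ _ (lB t m d e) (lM t m d e) (lT t m d e)
      (splits_len hq)

theorem r3_TBM : ∀ t m d e : Bool, dR P3 {0, 1, 2} (topPair 0 1 t m d e) (botPair 1 2 t m d e)
    (midPair 0 2 t m d e) [] [] [] [] = -(bs t * bs m * bs d) * kap t m d e := by
  decide +kernel

theorem x3_TBM : ∀ r o : Bool, ∀ q ∈ splits (3, r, o) (bar (3, r, o)),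
    wsgn (q.1 ++ q.2.1 ++ q.2.2.1 ++ q.2.2.2) *
      XTBM P3 (bare q.1) (bare q.2.1) (bare q.2.2.1) (bare q.2.2.2) =
      J q.2.2.1 q.1 + J q.2.2.1 q.2.2.2 := by
  decide +kernel

theorem loc3T0 (t m d e : Bool) : dloc P3 0 1 2 (topPair 0 1 t m d e) (botPair 1 2 t m d e)
    (midPair 0 2 t m d e) [] [] [] [] = -(bs t * bs m * bs d) * kap t m d e := by
  rw [dlocTBM]
  simp only [bare, List.map_nil]
  rw [x30_TBM, r3_TBM, mul_zero, zero_add]

theorem loc3T1 (t m d e r o : Bool) (q : Word × Word × Word × Word)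
    (hq : q ∈ splits (3, r, o) (bar (3, r, o))) :
    dloc P3 0 1 2 (topPair 0 1 t m d e) (botPair 1 2 t m d e) (midPair 0 2 t m d e)
      q.1 q.2.1 q.2.2.1 q.2.2.2 =
      (bs t * bs m * bs d) * (J q.2.2.1 q.1 + J q.2.2.1 q.2.2.2) := by
  rw [dlocTBM, dR_zero P3 (by decide) _ _ _ _ _ _ _ (lT t m d e) (lB t m d e) (lM t m d e)
    (splits_len hq), add_zero, ← x3_TBM r o q hq]
  ring

theorem dst_relab (a b c x : ℕ) (l₀ l₁ l₂ l₃ : Word) (y : Letter) (hy : y.1 = x)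
    (h : l₀ ++ l₁ ++ l₂ ++ l₃ = [] ∨ l₀ ++ l₁ ++ l₂ ++ l₃ = [y, bar y]) :
    ∃ q ∈ dst y.2.1 y.2.2,
      l₀ = relab (sg a b c x) q.1 ∧ l₁ = relab (sg a b c x) q.2.1 ∧
      l₂ = relab (sg a b c x) q.2.2.1 ∧ l₃ = relab (sg a b c x) q.2.2.2 := by
  rcases h with h | h
  · simp only [List.append_eq_nil_iff] at h
    obtain ⟨⟨⟨h0, h1⟩, h2⟩, h3⟩ := h
    refine ⟨([], [], [], []), List.mem_cons_self, ?_⟩
    rw [h0, h1, h2, h3]
    exact ⟨rfl, rfl, rfl, rfl⟩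
  · obtain ⟨q, hq, h1⟩ := split_relab a b c x l₀ l₁ l₂ l₃ y hy h
    exact ⟨q, List.mem_cons_of_mem _ hq, h1⟩

theorem dloc2 : DLoc2Stmt := by
  intro s₁ s₂ s₃ l₀ l₁ l₂ l₃ a b c x t m d e y hp hab hac hbc hxa hxb hxc hy h
  obtain ⟨q, hq, h0, h1, h2, h3⟩ := dst_relab a b c x l₀ l₁ l₂ l₃ y hy h
  have hσ := sg_inj hab hac hbc hxa hxb hxc
  have hT := top_relab a b c x t m d e
  have hM := mid_relab a b c x t m d e
  have hB := bot_relab a b c x t m d e
  have key := fun s s' s'' : Word => dloc_relab hσ P2 0 1 2 s s' s'' q.1 q.2.1 q.2.2.1 q.2.2.2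
  have e0 : sg a b c x 0 = a := rfl
  have e1 : sg a b c x 1 = b := rfl
  have e2 : sg a b c x 2 = c := rfl
  rw [e0, e1, e2] at key
  rcases perm3 hp with ⟨g1, g2, g3⟩ | ⟨g1, g2, g3⟩ | ⟨g1, g2, g3⟩ | ⟨g1, g2, g3⟩ |
    ⟨g1, g2, g3⟩ | ⟨g1, g2, g3⟩
  · rw [g1, g2, g3, hT, hM, hB, h0, h1, h2, h3, key]
    exact loc2_TMB t m d e _ _ q hq
  · rw [g1, g2, g3, hT, hM, hB, h0, h1, h2, h3, key]
    exact loc2_TBM t m d e _ _ q hq
  · rw [g1, g2, g3, hT, hM, hB, h0, h1, h2, h3, key]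
    exact loc2_MTB t m d e _ _ q hq
  · rw [g1, g2, g3, hT, hM, hB, h0, h1, h2, h3, key]
    exact loc2_MBT t m d e _ _ q hq
  · rw [g1, g2, g3, hT, hM, hB, h0, h1, h2, h3, key]
    exact loc2_BTM t m d e _ _ q hq
  · rw [g1, g2, g3, hT, hM, hB, h0, h1, h2, h3, key]
    exact loc2_BMT t m d e _ _ q hq

theorem dloc3 : DLoc3Stmt := by
  intro s₁ s₂ s₃ l₀ l₁ l₂ l₃ a b c x t m d e y hp hne hab hac hbc hxa hxb hxc hy h
  obtain ⟨q, hq, h0, h1, h2, h3⟩ := dst_relab a b c x l₀ l₁ l₂ l₃ y hy h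
  have hσ := sg_inj hab hac hbc hxa hxb hxc
  have hT := top_relab a b c x t m d e
  have hM := mid_relab a b c x t m d e
  have hB := bot_relab a b c x t m d e
  have key := fun s s' s'' : Word => dloc_relab hσ P3 0 1 2 s s' s'' q.1 q.2.1 q.2.2.1 q.2.2.2
  have e0 : sg a b c x 0 = a := rfl
  have e1 : sg a b c x 1 = b := rfl
  have e2 : sg a b c x 2 = c := rfl
  rw [e0, e1, e2] at key
  rcases perm3 hp with ⟨g1, g2, g3⟩ | ⟨g1, g2, g3⟩ | ⟨g1, g2, g3⟩ | ⟨g1, g2, g3⟩ |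
    ⟨g1, g2, g3⟩ | ⟨g1, g2, g3⟩
  · rw [g1, g2, g3, hT, hM, hB, h0, h1, h2, h3, key]
    exact loc3_TMB t m d e _ _ q hq
  · exact absurd (by rw [g1, g2, g3]) hne
  · rw [g1, g2, g3, hT, hM, hB, h0, h1, h2, h3, key]
    exact loc3_MTB t m d e _ _ q hq
  · rw [g1, g2, g3, hT, hM, hB, h0, h1, h2, h3, key]
    exact loc3_MBT t m d e _ _ q hq
  · rw [g1, g2, g3, hT, hM, hB, h0, h1, h2, h3, key]
    exact loc3_BTM t m d e _ _ q hq
  · rw [g1, g2, g3, hT, hM, hB, h0, h1, h2, h3, key]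
    exact loc3_BMT t m d e _ _ q hq

theorem dloc3T : DLoc3TStmt := by
  intro l₀ l₁ l₂ l₃ a b c x t m d e y hab hac hbc hxa hxb hxc hy
  have hσ := sg_inj hab hac hbc hxa hxb hxc
  have hT := top_relab a b c x t m d e
  have hM := mid_relab a b c x t m d e
  have hB := bot_relab a b c x t m d e
  have key := fun s s' s'' l m n k : Word => dloc_relab hσ P3 0 1 2 s s' s'' l m n k
  have e0 : sg a b c x 0 = a := rfl
  have e1 : sg a b c x 1 = b := rfl
  have e2 : sg a b c x 2 = c := rfl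
  rw [e0, e1, e2] at key
  constructor
  · have hk := key (topPair 0 1 t m d e) (botPair 1 2 t m d e) (midPair 0 2 t m d e) [] [] [] []
    rw [← hT, ← hM, ← hB, loc3T0] at hk
    exact hk
  · intro h
    obtain ⟨q, hq, h0, h1, h2, h3⟩ := split_relab a b c x l₀ l₁ l₂ l₃ y hy h
    rw [hT, hM, hB, h0, h1, h2, h3, key, J_relab hσ, J_relab hσ]
    exact loc3T1 t m d e _ _ q hq

end Pool.Agent.ZOL.H40
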