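import Pool.Agent.Helper40_ZOL.Fin
import Pool.Agent.Helper34_ZOL.ALG
import Pool.Agent.Helper25_ZOL.Deg
import Pool.Agent.Helper25_ZOL.Fant
import Pool.Agent.Helper25_ZOL.Th
import Pool.Agent.Helper10_ZOL.VDEG
import Pool.Agent.Helper11_ZOL.VR2
import Pool.Agent.Helper11_ZOL.VR3
import Pool.Agent.Helper11_ZOL.MPla
import Pool.Agent.Helper51_ZOL.DSUM
import Pool.Agent.Helper40_ZOL.Loc2
import Pool.Agent.Helper77_ZOL.PREL
import Pool.Agent.Helper24_ZOL.GFLIP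
import Pool.Agent.Helper24_ZOL.MGAU
import Pool.Agent.Helper24_ZOL.FMUL
import Pool.Agent.Helper9_ZOL.MSTEP
import Pool.Agent.Helper65_ZOL.UNK
import Pool.Agent.Helper97_ZOL.VAL
import Pool.Agent.Helper97_ZOL.GR

/-!
# ZOL: assembly
-/

namespace Pool.Agent.ZOL.H40

open Finset

theorem main_ops : ∃ (A B : ZK →+ ZK) (Θ : ℕ → ZK →+ ZK), Ops F A B Θ ∧
    (∀ d, Summ d (d + 2)) ∧ (∀ d, Summ d (d + 3)) :=
  ops_all H34.alg H25.th H25.fant H25.fzero H10.vdeg H24.mgau H11.mpla H9.mstep H24.gflip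
    (H24.fmul H24.gflip H24.mgau H11.mpla) (H24.fch H24.gflip H24.mgau H11.mpla H25.fant)
    vren vadd vr1 H11.vr2a H11.vr2b (H11.vr3a H51.dsum dloc2)
    (H11.vr3b H51.dsum dloc3 dloc3T H77.prel) (H65.unk H24.mgau H11.mpla) H97.val

theorem main_summ (d e : ℕ) (h : d + 2 ≤ e) :
    ∃ (i : Gr d →+ Gr e) (r : Gr e →+ Gr d), r.comp i = AddMonoidHom.id (Gr d) := by
  obtain ⟨A, B, Θ, -, s2, s3⟩ := main_ops
  obtain ⟨i, r, h1, h2, h3, h4, h5⟩ := summ_all s2 s3 d e h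
  exact H97.gr d e i r h1 h2 h3 h4 h5

theorem main_grow {p : ℕ} (hp : p.Prime) (hbad : ∃ d, ¬ NoT F p d) :
    ∃ e, ∀ N d, e + 6 * N ≤ d →
      ∃ i : (Fin N → ZMod p) →+ Gr d, Function.Injective i := by
  obtain ⟨A, B, Θ, h, -, -⟩ := main_ops
  exact grow_gr h H25.fzero hp hbad

end Pool.Agent.ZOL.H40
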