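import Pool.Agent.Helper40_ZOL.Grow2
import Pool.Agent.Helper40_ZOL.Main

/-!
# ZOL: growth of torsion, general form
-/

namespace Pool.Agent.ZOL.H40

open Finset

section alg

variable {X : Type} [AddCommGroup X] {G : ℕ → AddSubgroup X} {A B : X →+ X} {Θ : ℕ → X →+ X}

/-- no `S`-torsion in degree `d` -/
def NoS (G : ℕ → AddSubgroup X) (S : Submonoid ℤ) (d : ℕ) : Prop :=
  ∀ x ∈ G d, (∃ n ∈ S, n • x ∈ G (d + 1)) → x ∈ G (d + 1)

theorem Ops.cl_of_minS (h : Ops G A B Θ) {S : Submonoid ℤ} {e : ℕ} (h0 : G 0 = ⊤)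
    (hmin : ∀ d < e, NoS G S d) {x : X} (hx : x ∈ G e) (hpx : ∃ n ∈ S, n • x ∈ G (e + 1)) :
    Cl G Θ e x := by
  refine ⟨hx, fun j => ?_⟩
  rcases Nat.lt_or_ge e (3 * (j + 1)) with hlt | hge
  · have : e + 1 - 3 * (j + 1) = 0 := by omega
    rw [this, h0]; trivial
  · obtain ⟨n, hn, hpx⟩ := hpx
    have h1 := h.hΘ (j + 1) _ _ hx
    have h2 := h.hΘ (j + 1) _ _ hpx
    rw [map_zsmul] at h2
    have e1 : e + 1 - 3 * (j + 1) = (e - 3 * (j + 1)) + 1 := by omega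
    rw [e1] at h2 ⊢
    exact hmin _ (by omega) _ h1 ⟨n, hn, h2⟩

theorem Ops.memA (h : Ops G A B Θ) : ∀ (k n : ℕ) (y : X), y ∈ G n → A^[k] y ∈ G (n + 2 * k) := by
  intro k
  induction k with
  | zero => intro n y hy; simpa using hy
  | succ k ih => intro n y hy; rw [Function.iterate_succ_apply']; exact h.hA _ _ (ih n y hy)

theorem Ops.memB (h : Ops G A B Θ) : ∀ (k n : ℕ) (y : X), y ∈ G n → B^[k] y ∈ G (n + 3 * k) := by
  intro k
  induction k with
  | zero => intro n y hy; simpa using hy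
  | succ k ih => intro n y hy; rw [Function.iterate_succ_apply']; exact h.hB _ _ (ih n y hy)

theorem Ops.indepS (h : Ops G A B Θ) {S : Submonoid ℤ} {e : ℕ} (h0 : G 0 = ⊤)
    (hmin : ∀ d < e, NoS G S d) (b₀ a : ℕ) :
    ∀ N : ℕ, 3 * N ≤ a + 3 → ∀ x : ℕ → X, (∀ j < N, x j ∈ G e) →
      (∀ j < N, ∃ n ∈ S, n • x j ∈ G (e + 1)) →
      ∑ j ∈ range N, B^[b₀ + 2 * j] (A^[a - 3 * j] (x j)) ∈ G (e + 2 * a + 3 * b₀ + 1) →
      ∀ j < N, x j ∈ G (e + 1) := by
  intro N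
  induction N with
  | zero => intro _ _ _ _ _ j hj; omega
  | succ N ih =>
    intro hN x hx hS hc
    have hcl : ∀ j < N + 1, Cl G Θ (e + 2 * (a - 3 * j)) (A^[a - 3 * j] (x j)) := fun j hj =>
      h.clAn (h.cl_of_minS h0 hmin (hx j hj) (hS j hj)) (a - 3 * j)
    have hlast : x N ∈ G (e + 1) := by
      apply h.injAn (hx N (Nat.lt_succ_self N)) (a - 3 * N)
      have h1 := h.hΘ (b₀ + 2 * N) _ _ hc
      rw [map_sum, Finset.sum_range_succ] at h1
      have h2 : ∑ j ∈ range N, (Θ (b₀ + 2 * N)) (B^[b₀ + 2 * j] (A^[a - 3 * j] (x j))) ∈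
          G (e + 2 * (a - 3 * N) + 1) := by
        apply sum_mem
        intro j hj
        have hj := Finset.mem_range.1 hj
        have := (h.theta_B (hcl j (by omega)) (b₀ + 2 * j)).2.1 (b₀ + 2 * N) (by omega)
        exact h.mono (by omega) this
      have h3 := h.mono (show e + 2 * (a - 3 * N) + 1 ≤
        e + 2 * a + 3 * b₀ + 1 - 3 * (b₀ + 2 * N) by omega) h1
      have h4 := sub_mem h3 h2
      rw [add_sub_cancel_left] at h4
      have h5 := (h.theta_B (hcl N (Nat.lt_succ_self N)) (b₀ + 2 * N)).2.2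
      have h6 := sub_mem h4 h5
      rwa [sub_sub_cancel] at h6
    intro j hj
    rcases Nat.lt_succ_iff_lt_or_eq.1 hj with hj | rfl
    · refine ih (by omega) x (fun j hj => hx j (by omega)) (fun j hj => hS j (by omega)) ?_ j hj
      rw [Finset.sum_range_succ] at hc
      have h8 : B^[b₀ + 2 * N] (A^[a - 3 * N] (x N)) ∈ G (e + 2 * a + 3 * b₀ + 1) :=
        h.mono (by omega) (h.memB _ _ _ (h.memA _ _ _ hlast))
      have := sub_mem hc h8
      rwa [add_sub_cancel_right] at this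
    · exact hlast

/-- the iterate as a homomorphism -/
def itHom (f : X →+ X) : ℕ → X →+ X
  | 0 => AddMonoidHom.id X
  | k + 1 => f.comp (itHom f k)

theorem itHom_apply (f : X →+ X) (k : ℕ) (x : X) : itHom f k x = f^[k] x := by
  induction k with
  | zero => rfl
  | succ k ih => rw [Function.iterate_succ_apply', ← ih]; rfl

/-- general form: the homomorphisms `x ↦ B^(b) A^(a) x` -/
theorem Ops.growS (h : Ops G A B Θ) (h0 : G 0 = ⊤) {S : Submonoid ℤ} {e : ℕ}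
    (hmin : ∀ d < e, NoS G S d) (N d : ℕ) (hd : e + 6 * N ≤ d) :
    ∃ φ : ℕ → X →+ X, (∀ j < N, ∀ x ∈ G e, φ j x ∈ G d) ∧
      (∀ j < N, ∀ x ∈ G (e + 1), φ j x ∈ G (d + 1)) ∧
      ∀ x : ℕ → X, (∀ j < N, x j ∈ G e) → (∀ j < N, ∃ n ∈ S, n • x j ∈ G (e + 1)) →
        ∑ j ∈ range N, φ j (x j) ∈ G (d + 1) → ∀ j < N, x j ∈ G (e + 1) := by
  rcases Nat.eq_zero_or_pos N with rfl | hN
  · exact ⟨fun _ => 0, fun j hj => absurd hj (Nat.not_lt_zero j),
      fun j hj => absurd hj (Nat.not_lt_zero j), fun _ _ _ _ j hj => absurd hj (Nat.not_lt_zero j)⟩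
  obtain ⟨b₀, a, hb₀, hab⟩ : ∃ b₀ a : ℕ, b₀ ≤ 1 ∧ e + 2 * a + 3 * b₀ = d := by
    rcases Nat.even_or_odd' (d - e) with ⟨k, hk | hk⟩
    · exact ⟨0, k, by omega, by omega⟩
    · exact ⟨1, k - 1, by omega, by omega⟩
  refine ⟨fun j => (itHom B (b₀ + 2 * j)).comp (itHom A (a - 3 * j)), ?_, ?_, ?_⟩
  · intro j hj x hx
    simp only [AddMonoidHom.comp_apply, itHom_apply]
    exact h.mono (by omega) (h.memB _ _ _ (h.memA _ _ _ hx))
  · intro j hj x hx
    simp only [AddMonoidHom.comp_apply, itHom_apply]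
    exact h.mono (by omega) (h.memB _ _ _ (h.memA _ _ _ hx))
  · intro x hx hS hc
    simp only [AddMonoidHom.comp_apply, itHom_apply] at hc
    exact h.indepS h0 hmin b₀ a N (by omega) x hx hS (by rw [hab]; exact hc)

end alg

/-- passage to the graded pieces -/
theorem gr_growS {S : Submonoid ℤ} {e : ℕ}
    (hmin : ∀ d < e, ∀ x : Gr d, (∃ n ∈ S, n • x = 0) → x = 0) (N d : ℕ)
    (hd : e + 6 * N ≤ d) :
    ∃ i : (Fin N → Gr e) →+ Gr d,
      ∀ x : Fin N → Gr e, (∀ j, ∃ n ∈ S, n • x j = 0) → i x = 0 → x = 0 := by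
  obtain ⟨A, B, Θ, h, -, -⟩ := main_ops
  have mk0 : ∀ (d : ℕ) (y : F d), (QuotientAddGroup.mk' ((F (d + 1)).addSubgroupOf (F d)) y = 0) ↔
      (y : ZK) ∈ F (d + 1) := by
    intro d y
    rw [← AddSubgroup.mem_addSubgroupOf]
    exact QuotientAddGroup.eq_zero_iff _
  have hminF : ∀ d < e, NoS F S d := by
    intro d hd x hx hS
    obtain ⟨n, hn, hnx⟩ := hS
    have h1 := hmin d hd (QuotientAddGroup.mk' ((F (d + 1)).addSubgroupOf (F d)) ⟨x, hx⟩)
      ⟨n, hn, by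
        have e1 : n • (QuotientAddGroup.mk' ((F (d + 1)).addSubgroupOf (F d)) ⟨x, hx⟩) =
          QuotientAddGroup.mk' ((F (d + 1)).addSubgroupOf (F d)) (n • (⟨x, hx⟩ : F d)) :=
          (map_zsmul _ _ _).symm
        rw [e1]
        exact (mk0 d _).2 hnx⟩
    exact (mk0 d ⟨x, hx⟩).1 h1
  obtain ⟨φ, p1, p2, p3⟩ := h.growS H25.fzero hminF N d hd
  -- the induced maps on the graded pieces
  let ψ : Fin N → (F e →+ F d) := fun j =>
    ((φ j.1).comp (F e).subtype).codRestrict (F d) (fun x => p1 j.1 j.2 x.1 x.2)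
  let χ : Fin N → (Gr e →+ Gr d) := fun j =>
    QuotientAddGroup.map _ _ (ψ j) (by
      intro x hx
      rw [AddSubgroup.mem_comap, AddSubgroup.mem_addSubgroupOf]
      rw [AddSubgroup.mem_addSubgroupOf] at hx
      exact p2 j.1 j.2 x.1 hx)
  have hχ : ∀ (j : Fin N) (x : F e),
      χ j (QuotientAddGroup.mk' ((F (e + 1)).addSubgroupOf (F e)) x) =
      QuotientAddGroup.mk' ((F (d + 1)).addSubgroupOf (F d)) (ψ j x) := fun j x => rfl
  refine ⟨∑ j, (χ j).comp (Pi.evalAddMonoidHom (fun _ : Fin N => Gr e) j), ?_⟩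
  intro x hx hix
  have hrep : ∀ j, ∃ y : F e, QuotientAddGroup.mk' ((F (e + 1)).addSubgroupOf (F e)) y = x j :=
    fun j => QuotientAddGroup.mk'_surjective _ (x j)
  choose y hy using hrep
  have h1 : (∑ j, (χ j).comp (Pi.evalAddMonoidHom (fun _ : Fin N => Gr e) j)) x =
      QuotientAddGroup.mk' ((F (d + 1)).addSubgroupOf (F d)) (∑ j, ψ j (y j)) := by
    rw [AddMonoidHom.finsetSum_apply, map_sum]
    refine Finset.sum_congr rfl fun j _ => ?_
    rw [AddMonoidHom.comp_apply, Pi.evalAddMonoidHom_apply, ← hy j, hχ]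
  rw [h1] at hix
  have h2 := (mk0 d _).1 hix
  have h3 : ((∑ j, ψ j (y j) : F d) : ZK) =
      ∑ j ∈ range N, φ j (if hj : j < N then (y ⟨j, hj⟩ : ZK) else 0) := by
    rw [AddSubgroup.val_finsetSum, Finset.sum_range]
    refine Finset.sum_congr rfl fun j _ => ?_
    rw [dif_pos j.2]
    rfl
  rw [h3] at h2
  have h4 := p3 (fun j => if hj : j < N then (y ⟨j, hj⟩ : ZK) else 0) (by
      intro j hj
      simp only [dif_pos hj]
      exact (y ⟨j, hj⟩).2) (by
      intro j hj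
      obtain ⟨n, hn, hnx⟩ := hx ⟨j, hj⟩
      refine ⟨n, hn, ?_⟩
      simp only [dif_pos hj]
      have e2 : n • x ⟨j, hj⟩ = QuotientAddGroup.mk' ((F (e + 1)).addSubgroupOf (F e))
          (n • y ⟨j, hj⟩) := by
        rw [← hy ⟨j, hj⟩]; exact (map_zsmul _ _ _).symm
      rw [e2] at hnx
      exact (mk0 e _).1 hnx) h2
  funext j
  have h5 := h4 j.1 j.2
  simp only [dif_pos j.2] at h5
  have h6 := (mk0 e (y j)).2 h5
  rw [hy j] at h6
  exact h6

end Pool.Agent.ZOL.H40
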