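import Pool.Agent.Helper67_ZOL.Relab
import Pool.Agent.Helper40_ZOL.Kit

/-!
# ZOL: the local differences for the third move, with few evaluations
-/

namespace Pool.Agent.ZOL.H40

open Finset

/-- labels and over bits only -/
def bare (w : Word) : List (ℕ × Bool) := w.map (fun l => (l.1, l.2.2))

/-- shape of a bare word -/
def shp (v : List (ℕ × Bool)) : List (ℕ × Bool) :=
  v.map (fun x => ((v.map Prod.fst).idxOf x.1, x.2))

/-- indicator of the patterns -/
def NZ (P : List (List (ℕ × Bool))) (v : List (ℕ × Bool)) : ℤ := if shp v ∈ P then 1 else 0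

theorem shape_bare (w : Word) : shape w = shp (bare w) := by
  simp [shape, shp, bare, List.map_map, Function.comp_def]

theorem f_bare (P : List (List (ℕ × Bool))) (w : Word) : f P w = wsgn w * NZ P (bare w) := by
  rw [f, NZ, shape_bare]
  split <;> simp

theorem bare_append (u v : Word) : bare (u ++ v) = bare u ++ bare v := by simp [bare]

theorem wsgn_append (u v : Word) : wsgn (u ++ v) = wsgn u * wsgn v := by simp [wsgn]

theorem wsgn_reverse (u : Word) : wsgn u.reverse = wsgn u := by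
  induction u with
  | nil => rfl
  | cons l u ih =>
    rw [List.reverse_cons, wsgn_append, ih, show l :: u = [l] ++ u from rfl, wsgn_append, mul_comm]

/-- ordered pair -/
def op (t : Bool) (x y : ℕ × Bool) : List (ℕ × Bool) := if t then [x, y] else [y, x]

theorem NZ_op (P : List (List (ℕ × Bool))) (t : Bool) (x y : ℕ × Bool)
    (u v : List (ℕ × Bool)) : NZ P (u ++ op t x y ++ v) - NZ P (u ++ op (!t) x y ++ v) =
      bs t * (NZ P (u ++ [x, y] ++ v) - NZ P (u ++ [y, x] ++ v)) := by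
  cases t
  · simp only [op, bs, Bool.not_false, if_true, Bool.false_eq_true, if_false]; ring
  · simp only [op, bs, Bool.not_true, if_true, Bool.false_eq_true, if_false]; ring

/-- one summand of `dloc` -/
def dR (P : List (List (ℕ × Bool))) (R : Finset ℕ) (s₁ s₂ s₃ l₀ l₁ l₂ l₃ : Word) : ℤ :=
  f P (l₀ ++ sub R s₁ ++ l₁ ++ sub R s₂ ++ l₂ ++ sub R s₃ ++ l₃) -
    f P (l₀ ++ sub R s₁.reverse ++ l₁ ++ sub R s₂.reverse ++ l₂ ++ sub R s₃.reverse ++ l₃)

theorem dloc_eq (P : List (List (ℕ × Bool))) (s₁ s₂ s₃ l₀ l₁ l₂ l₃ : Word) :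
    dloc P 0 1 2 s₁ s₂ s₃ l₀ l₁ l₂ l₃ = dR P {0, 1} s₁ s₂ s₃ l₀ l₁ l₂ l₃ +
      dR P {0, 2} s₁ s₂ s₃ l₀ l₁ l₂ l₃ + dR P {1, 2} s₁ s₂ s₃ l₀ l₁ l₂ l₃ +
      dR P {0, 1, 2} s₁ s₂ s₃ l₀ l₁ l₂ l₃ := by
  simp only [dloc, dR, List.map_cons, List.map_nil, List.sum_cons, List.sum_nil]
  ring

theorem dR_eq (P : List (List (ℕ × Bool))) (R : Finset ℕ) (s₁ s₂ s₃ l₀ l₁ l₂ l₃ : Word) :
    dR P R s₁ s₂ s₃ l₀ l₁ l₂ l₃ = wsgn (l₀ ++ l₁ ++ l₂ ++ l₃) *
      (wsgn (sub R s₁) * wsgn (sub R s₂) * wsgn (sub R s₃)) *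
      (NZ P (bare l₀ ++ bare (sub R s₁) ++ bare l₁ ++ bare (sub R s₂) ++ bare l₂ ++
          bare (sub R s₃) ++ bare l₃) -
        NZ P (bare l₀ ++ bare (sub R s₁.reverse) ++ bare l₁ ++ bare (sub R s₂.reverse) ++
          bare l₂ ++ bare (sub R s₃.reverse) ++ bare l₃)) := by
  simp only [dR, f_bare, bare_append, wsgn_append, sub_reverse, wsgn_reverse]
  ring

/-! the three strands -/

theorem bT_ab (t m d e : Bool) : bare (sub {0, 1} (topPair 0 1 t m d e)) = op t (0, true) (1, true) := by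
  cases t <;> cases m <;> cases d <;> cases e <;> decide

theorem bT_ab' (t m d e : Bool) : bare (sub {0, 1} (topPair 0 1 t m d e).reverse) = op (!t) (0, true) (1, true) := by
  cases t <;> cases m <;> cases d <;> cases e <;> decide

theorem wT_ab (t m d e : Bool) : wsgn (sub {0, 1} (topPair 0 1 t m d e)) = bs m * bs d := by
  cases t <;> cases m <;> cases d <;> cases e <;> decide

theorem bT_ac (t m d e : Bool) : bare (sub {0, 2} (topPair 0 1 t m d e)) = [(0, true)] := by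
  cases t <;> cases m <;> cases d <;> cases e <;> decide

theorem bT_ac' (t m d e : Bool) : bare (sub {0, 2} (topPair 0 1 t m d e).reverse) = [(0, true)] := by
  cases t <;> cases m <;> cases d <;> cases e <;> decide

theorem wT_ac (t m d e : Bool) : wsgn (sub {0, 2} (topPair 0 1 t m d e)) = bs t * bs m * bs e := by
  cases t <;> cases m <;> cases d <;> cases e <;> decide

theorem bT_bc (t m d e : Bool) : bare (sub {1, 2} (topPair 0 1 t m d e)) = [(1, true)] := by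
  cases t <;> cases m <;> cases d <;> cases e <;> decide

theorem bT_bc' (t m d e : Bool) : bare (sub {1, 2} (topPair 0 1 t m d e).reverse) = [(1, true)] := by
  cases t <;> cases m <;> cases d <;> cases e <;> decide

theorem wT_bc (t m d e : Bool) : wsgn (sub {1, 2} (topPair 0 1 t m d e)) = bs t * bs d * bs e := by
  cases t <;> cases m <;> cases d <;> cases e <;> decide

theorem bT_abc (t m d e : Bool) : bare (sub {0, 1, 2} (topPair 0 1 t m d e)) = op t (0, true) (1, true) := by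
  cases t <;> cases m <;> cases d <;> cases e <;> decide

theorem bT_abc' (t m d e : Bool) : bare (sub {0, 1, 2} (topPair 0 1 t m d e).reverse) = op (!t) (0, true) (1, true) := by
  cases t <;> cases m <;> cases d <;> cases e <;> decide

theorem wT_abc (t m d e : Bool) : wsgn (sub {0, 1, 2} (topPair 0 1 t m d e)) = bs m * bs d := by
  cases t <;> cases m <;> cases d <;> cases e <;> decide

theorem bM_ab (t m d e : Bool) : bare (sub {0, 1} (midPair 0 2 t m d e)) = [(0, false)] := by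
  cases t <;> cases m <;> cases d <;> cases e <;> decide

theorem bM_ab' (t m d e : Bool) : bare (sub {0, 1} (midPair 0 2 t m d e).reverse) = [(0, false)] := by
  cases t <;> cases m <;> cases d <;> cases e <;> decide

theorem wM_ab (t m d e : Bool) : wsgn (sub {0, 1} (midPair 0 2 t m d e)) = 1 := by
  cases t <;> cases m <;> cases d <;> cases e <;> decide

theorem bM_ac (t m d e : Bool) : bare (sub {0, 2} (midPair 0 2 t m d e)) = op m (0, false) (2, true) := by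
  cases t <;> cases m <;> cases d <;> cases e <;> decide

theorem bM_ac' (t m d e : Bool) : bare (sub {0, 2} (midPair 0 2 t m d e).reverse) = op (!m) (0, false) (2, true) := by
  cases t <;> cases m <;> cases d <;> cases e <;> decide

theorem wM_ac (t m d e : Bool) : wsgn (sub {0, 2} (midPair 0 2 t m d e)) = bs m * bs d * bs e := by
  cases t <;> cases m <;> cases d <;> cases e <;> decide

theorem bM_bc (t m d e : Bool) : bare (sub {1, 2} (midPair 0 2 t m d e)) = [(2, true)] := by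
  cases t <;> cases m <;> cases d <;> cases e <;> decide

theorem bM_bc' (t m d e : Bool) : bare (sub {1, 2} (midPair 0 2 t m d e).reverse) = [(2, true)] := by
  cases t <;> cases m <;> cases d <;> cases e <;> decide

theorem wM_bc (t m d e : Bool) : wsgn (sub {1, 2} (midPair 0 2 t m d e)) = bs m * bs d * bs e := by
  cases t <;> cases m <;> cases d <;> cases e <;> decide

theorem bM_abc (t m d e : Bool) : bare (sub {0, 1, 2} (midPair 0 2 t m d e)) = op m (0, false) (2, true) := by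
  cases t <;> cases m <;> cases d <;> cases e <;> decide

theorem bM_abc' (t m d e : Bool) : bare (sub {0, 1, 2} (midPair 0 2 t m d e).reverse) = op (!m) (0, false) (2, true) := by
  cases t <;> cases m <;> cases d <;> cases e <;> decide

theorem wM_abc (t m d e : Bool) : wsgn (sub {0, 1, 2} (midPair 0 2 t m d e)) = bs m * bs d * bs e := by
  cases t <;> cases m <;> cases d <;> cases e <;> decide

theorem bB_ab (t m d e : Bool) : bare (sub {0, 1} (botPair 1 2 t m d e)) = [(1, false)] := by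
  cases t <;> cases m <;> cases d <;> cases e <;> decide

theorem bB_ab' (t m d e : Bool) : bare (sub {0, 1} (botPair 1 2 t m d e).reverse) = [(1, false)] := by
  cases t <;> cases m <;> cases d <;> cases e <;> decide

theorem wB_ab (t m d e : Bool) : wsgn (sub {0, 1} (botPair 1 2 t m d e)) = 1 := by
  cases t <;> cases m <;> cases d <;> cases e <;> decide

theorem bB_ac (t m d e : Bool) : bare (sub {0, 2} (botPair 1 2 t m d e)) = [(2, false)] := by
  cases t <;> cases m <;> cases d <;> cases e <;> decide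

theorem bB_ac' (t m d e : Bool) : bare (sub {0, 2} (botPair 1 2 t m d e).reverse) = [(2, false)] := by
  cases t <;> cases m <;> cases d <;> cases e <;> decide

theorem wB_ac (t m d e : Bool) : wsgn (sub {0, 2} (botPair 1 2 t m d e)) = 1 := by
  cases t <;> cases m <;> cases d <;> cases e <;> decide

theorem bB_bc (t m d e : Bool) : bare (sub {1, 2} (botPair 1 2 t m d e)) = op d (1, false) (2, false) := by
  cases t <;> cases m <;> cases d <;> cases e <;> decide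

theorem bB_bc' (t m d e : Bool) : bare (sub {1, 2} (botPair 1 2 t m d e).reverse) = op (!d) (1, false) (2, false) := by
  cases t <;> cases m <;> cases d <;> cases e <;> decide

theorem wB_bc (t m d e : Bool) : wsgn (sub {1, 2} (botPair 1 2 t m d e)) = 1 := by
  cases t <;> cases m <;> cases d <;> cases e <;> decide

theorem bB_abc (t m d e : Bool) : bare (sub {0, 1, 2} (botPair 1 2 t m d e)) = op d (1, false) (2, false) := by
  cases t <;> cases m <;> cases d <;> cases e <;> decide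

theorem bB_abc' (t m d e : Bool) : bare (sub {0, 1, 2} (botPair 1 2 t m d e).reverse) = op (!d) (1, false) (2, false) := by
  cases t <;> cases m <;> cases d <;> cases e <;> decide

theorem wB_abc (t m d e : Bool) : wsgn (sub {0, 1, 2} (botPair 1 2 t m d e)) = 1 := by
  cases t <;> cases m <;> cases d <;> cases e <;> decide

theorem bs_sq (t : Bool) : bs t * bs t = 1 := by cases t <;> decide

/-- the sum of the three bare differences, order TMB -/
def XTMB (P : List (List (ℕ × Bool))) (x₀ x₁ x₂ x₃ : List (ℕ × Bool)) : ℤ :=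
  (NZ P (x₀ ++ [(0, true), (1, true)] ++ x₁ ++ [(0, false)] ++ x₂ ++ [(1, false)] ++ x₃) -
    NZ P (x₀ ++ [(1, true), (0, true)] ++ x₁ ++ [(0, false)] ++ x₂ ++ [(1, false)] ++ x₃)) +
  (NZ P (x₀ ++ [(0, true)] ++ x₁ ++ [(0, false), (2, true)] ++ x₂ ++ [(2, false)] ++ x₃) -
    NZ P (x₀ ++ [(0, true)] ++ x₁ ++ [(2, true), (0, false)] ++ x₂ ++ [(2, false)] ++ x₃)) +
  (NZ P (x₀ ++ [(1, true)] ++ x₁ ++ [(2, true)] ++ x₂ ++ [(1, false), (2, false)] ++ x₃) -
    NZ P (x₀ ++ [(1, true)] ++ x₁ ++ [(2, true)] ++ x₂ ++ [(2, false), (1, false)] ++ x₃))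

theorem algTMB (s T M D E Y1 Y2 Y3 r : ℤ) (ht : T * T = 1) (hm : M * M = 1)
    (hd : D * D = 1) (he : E * E = 1) :
    s * ((M * D) * 1 * 1) * (T * Y1) + s * ((T * M * E) * (M * D * E) * 1) * (M * Y2) +
      s * ((T * D * E) * (M * D * E) * 1) * (D * Y3) + r = s * (T * M * D) * (Y1 + Y2 + Y3) + r := by
  have _ := ht
  linear_combination s * T * D * M * Y2 * E * E * hm + s * T * D * M * Y2 * he +
    s * T * M * D * Y3 * E * E * hd + s * T * M * D * Y3 * he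

theorem dlocTMB (P : List (List (ℕ × Bool))) (t m d e : Bool) (l₀ l₁ l₂ l₃ : Word) :
    dloc P 0 1 2 (topPair 0 1 t m d e) (midPair 0 2 t m d e) (botPair 1 2 t m d e) l₀ l₁ l₂ l₃ =
      wsgn (l₀ ++ l₁ ++ l₂ ++ l₃) * (bs t * bs m * bs d) *
        XTMB P (bare l₀) (bare l₁) (bare l₂) (bare l₃) +
      dR P {0, 1, 2} (topPair 0 1 t m d e) (midPair 0 2 t m d e) (botPair 1 2 t m d e) l₀ l₁ l₂ l₃ := by
  have ht := bs_sq t
  have hm := bs_sq m
  have hd := bs_sq d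
  have he := bs_sq e
  have hab := NZ_op P t (0, true) (1, true) (bare l₀) (bare l₁ ++ ([(0, false)] ++ (bare l₂ ++ ([(1, false)] ++ (bare l₃)))))
  have hac := NZ_op P m (0, false) (2, true) (bare l₀ ++ [(0, true)] ++ bare l₁) (bare l₂ ++ ([(2, false)] ++ (bare l₃)))
  have hbc := NZ_op P d (1, false) (2, false) (bare l₀ ++ [(1, true)] ++ bare l₁ ++ [(2, true)] ++ bare l₂) (bare l₃)
  simp only [List.append_assoc] at hab hac hbc
  rw [dloc_eq, dR_eq P {0, 1}, dR_eq P {0, 2}, dR_eq P {1, 2}]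
  simp only [bT_ab, bT_ab', wT_ab, bM_ab, bM_ab', wM_ab, bB_ab, bB_ab', wB_ab, bT_ac, bT_ac', wT_ac, bM_ac, bM_ac', wM_ac, bB_ac, bB_ac', wB_ac, bT_bc, bT_bc', wT_bc, bM_bc, bM_bc', wM_bc, bB_bc, bB_bc', wB_bc, XTMB, List.append_assoc]
  rw [hab, hac, hbc]
  exact algTMB _ _ _ _ _ _ _ _ _ ht hm hd he

/-- the sum of the three bare differences, order TBM -/
def XTBM (P : List (List (ℕ × Bool))) (x₀ x₁ x₂ x₃ : List (ℕ × Bool)) : ℤ :=
  (NZ P (x₀ ++ [(0, true), (1, true)] ++ x₁ ++ [(1, false)] ++ x₂ ++ [(0, false)] ++ x₃) -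
    NZ P (x₀ ++ [(1, true), (0, true)] ++ x₁ ++ [(1, false)] ++ x₂ ++ [(0, false)] ++ x₃)) +
  (NZ P (x₀ ++ [(0, true)] ++ x₁ ++ [(2, false)] ++ x₂ ++ [(0, false), (2, true)] ++ x₃) -
    NZ P (x₀ ++ [(0, true)] ++ x₁ ++ [(2, false)] ++ x₂ ++ [(2, true), (0, false)] ++ x₃)) +
  (NZ P (x₀ ++ [(1, true)] ++ x₁ ++ [(1, false), (2, false)] ++ x₂ ++ [(2, true)] ++ x₃) -
    NZ P (x₀ ++ [(1, true)] ++ x₁ ++ [(2, false), (1, false)] ++ x₂ ++ [(2, true)] ++ x₃))

theorem algTBM (s T M D E Y1 Y2 Y3 r : ℤ) (ht : T * T = 1) (hm : M * M = 1)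
    (hd : D * D = 1) (he : E * E = 1) :
    s * ((M * D) * 1 * 1) * (T * Y1) + s * ((T * M * E) * 1 * (M * D * E)) * (M * Y2) +
      s * ((T * D * E) * 1 * (M * D * E)) * (D * Y3) + r = s * (T * M * D) * (Y1 + Y2 + Y3) + r := by
  have _ := ht
  linear_combination s * T * D * M * Y2 * E * E * hm + s * T * D * M * Y2 * he +
    s * T * M * D * Y3 * E * E * hd + s * T * M * D * Y3 * he

theorem dlocTBM (P : List (List (ℕ × Bool))) (t m d e : Bool) (l₀ l₁ l₂ l₃ : Word) :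
    dloc P 0 1 2 (topPair 0 1 t m d e) (botPair 1 2 t m d e) (midPair 0 2 t m d e) l₀ l₁ l₂ l₃ =
      wsgn (l₀ ++ l₁ ++ l₂ ++ l₃) * (bs t * bs m * bs d) *
        XTBM P (bare l₀) (bare l₁) (bare l₂) (bare l₃) +
      dR P {0, 1, 2} (topPair 0 1 t m d e) (botPair 1 2 t m d e) (midPair 0 2 t m d e) l₀ l₁ l₂ l₃ := by
  have ht := bs_sq t
  have hm := bs_sq m
  have hd := bs_sq d
  have he := bs_sq e
  have hab := NZ_op P t (0, true) (1, true) (bare l₀) (bare l₁ ++ ([(1, false)] ++ (bare l₂ ++ ([(0, false)] ++ (bare l₃)))))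
  have hac := NZ_op P m (0, false) (2, true) (bare l₀ ++ [(0, true)] ++ bare l₁ ++ [(2, false)] ++ bare l₂) (bare l₃)
  have hbc := NZ_op P d (1, false) (2, false) (bare l₀ ++ [(1, true)] ++ bare l₁) (bare l₂ ++ ([(2, true)] ++ (bare l₃)))
  simp only [List.append_assoc] at hab hac hbc
  rw [dloc_eq, dR_eq P {0, 1}, dR_eq P {0, 2}, dR_eq P {1, 2}]
  simp only [bT_ab, bT_ab', wT_ab, bB_ab, bB_ab', wB_ab, bM_ab, bM_ab', wM_ab, bT_ac, bT_ac', wT_ac, bB_ac, bB_ac', wB_ac, bM_ac, bM_ac', wM_ac, bT_bc, bT_bc', wT_bc, bB_bc, bB_bc', wB_bc, bM_bc, bM_bc', wM_bc, XTBM, List.append_assoc]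
  rw [hab, hac, hbc]
  exact algTBM _ _ _ _ _ _ _ _ _ ht hm hd he

/-- the sum of the three bare differences, order MTB -/
def XMTB (P : List (List (ℕ × Bool))) (x₀ x₁ x₂ x₃ : List (ℕ × Bool)) : ℤ :=
  (NZ P (x₀ ++ [(0, false)] ++ x₁ ++ [(0, true), (1, true)] ++ x₂ ++ [(1, false)] ++ x₃) -
    NZ P (x₀ ++ [(0, false)] ++ x₁ ++ [(1, true), (0, true)] ++ x₂ ++ [(1, false)] ++ x₃)) +
  (NZ P (x₀ ++ [(0, false), (2, true)] ++ x₁ ++ [(0, true)] ++ x₂ ++ [(2, false)] ++ x₃) -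
    NZ P (x₀ ++ [(2, true), (0, false)] ++ x₁ ++ [(0, true)] ++ x₂ ++ [(2, false)] ++ x₃)) +
  (NZ P (x₀ ++ [(2, true)] ++ x₁ ++ [(1, true)] ++ x₂ ++ [(1, false), (2, false)] ++ x₃) -
    NZ P (x₀ ++ [(2, true)] ++ x₁ ++ [(1, true)] ++ x₂ ++ [(2, false), (1, false)] ++ x₃))

theorem algMTB (s T M D E Y1 Y2 Y3 r : ℤ) (ht : T * T = 1) (hm : M * M = 1)
    (hd : D * D = 1) (he : E * E = 1) :
    s * (1 * (M * D) * 1) * (T * Y1) + s * ((M * D * E) * (T * M * E) * 1) * (M * Y2) +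
      s * ((M * D * E) * (T * D * E) * 1) * (D * Y3) + r = s * (T * M * D) * (Y1 + Y2 + Y3) + r := by
  have _ := ht
  linear_combination s * T * D * M * Y2 * E * E * hm + s * T * D * M * Y2 * he +
    s * T * M * D * Y3 * E * E * hd + s * T * M * D * Y3 * he

theorem dlocMTB (P : List (List (ℕ × Bool))) (t m d e : Bool) (l₀ l₁ l₂ l₃ : Word) :
    dloc P 0 1 2 (midPair 0 2 t m d e) (topPair 0 1 t m d e) (botPair 1 2 t m d e) l₀ l₁ l₂ l₃ =
      wsgn (l₀ ++ l₁ ++ l₂ ++ l₃) * (bs t * bs m * bs d) *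
        XMTB P (bare l₀) (bare l₁) (bare l₂) (bare l₃) +
      dR P {0, 1, 2} (midPair 0 2 t m d e) (topPair 0 1 t m d e) (botPair 1 2 t m d e) l₀ l₁ l₂ l₃ := by
  have ht := bs_sq t
  have hm := bs_sq m
  have hd := bs_sq d
  have he := bs_sq e
  have hab := NZ_op P t (0, true) (1, true) (bare l₀ ++ [(0, false)] ++ bare l₁) (bare l₂ ++ ([(1, false)] ++ (bare l₃)))
  have hac := NZ_op P m (0, false) (2, true) (bare l₀) (bare l₁ ++ ([(0, true)] ++ (bare l₂ ++ ([(2, false)] ++ (bare l₃)))))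
  have hbc := NZ_op P d (1, false) (2, false) (bare l₀ ++ [(2, true)] ++ bare l₁ ++ [(1, true)] ++ bare l₂) (bare l₃)
  simp only [List.append_assoc] at hab hac hbc
  rw [dloc_eq, dR_eq P {0, 1}, dR_eq P {0, 2}, dR_eq P {1, 2}]
  simp only [bM_ab, bM_ab', wM_ab, bT_ab, bT_ab', wT_ab, bB_ab, bB_ab', wB_ab, bM_ac, bM_ac', wM_ac, bT_ac, bT_ac', wT_ac, bB_ac, bB_ac', wB_ac, bM_bc, bM_bc', wM_bc, bT_bc, bT_bc', wT_bc, bB_bc, bB_bc', wB_bc, XMTB, List.append_assoc]
  rw [hab, hac, hbc]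
  exact algMTB _ _ _ _ _ _ _ _ _ ht hm hd he

/-- the sum of the three bare differences, order MBT -/
def XMBT (P : List (List (ℕ × Bool))) (x₀ x₁ x₂ x₃ : List (ℕ × Bool)) : ℤ :=
  (NZ P (x₀ ++ [(0, false)] ++ x₁ ++ [(1, false)] ++ x₂ ++ [(0, true), (1, true)] ++ x₃) -
    NZ P (x₀ ++ [(0, false)] ++ x₁ ++ [(1, false)] ++ x₂ ++ [(1, true), (0, true)] ++ x₃)) +
  (NZ P (x₀ ++ [(0, false), (2, true)] ++ x₁ ++ [(2, false)] ++ x₂ ++ [(0, true)] ++ x₃) -
    NZ P (x₀ ++ [(2, true), (0, false)] ++ x₁ ++ [(2, false)] ++ x₂ ++ [(0, true)] ++ x₃)) +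
  (NZ P (x₀ ++ [(2, true)] ++ x₁ ++ [(1, false), (2, false)] ++ x₂ ++ [(1, true)] ++ x₃) -
    NZ P (x₀ ++ [(2, true)] ++ x₁ ++ [(2, false), (1, false)] ++ x₂ ++ [(1, true)] ++ x₃))

theorem algMBT (s T M D E Y1 Y2 Y3 r : ℤ) (ht : T * T = 1) (hm : M * M = 1)
    (hd : D * D = 1) (he : E * E = 1) :
    s * (1 * 1 * (M * D)) * (T * Y1) + s * ((M * D * E) * 1 * (T * M * E)) * (M * Y2) +
      s * ((M * D * E) * 1 * (T * D * E)) * (D * Y3) + r = s * (T * M * D) * (Y1 + Y2 + Y3) + r := by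
  have _ := ht
  linear_combination s * T * D * M * Y2 * E * E * hm + s * T * D * M * Y2 * he +
    s * T * M * D * Y3 * E * E * hd + s * T * M * D * Y3 * he

theorem dlocMBT (P : List (List (ℕ × Bool))) (t m d e : Bool) (l₀ l₁ l₂ l₃ : Word) :
    dloc P 0 1 2 (midPair 0 2 t m d e) (botPair 1 2 t m d e) (topPair 0 1 t m d e) l₀ l₁ l₂ l₃ =
      wsgn (l₀ ++ l₁ ++ l₂ ++ l₃) * (bs t * bs m * bs d) *
        XMBT P (bare l₀) (bare l₁) (bare l₂) (bare l₃) +
      dR P {0, 1, 2} (midPair 0 2 t m d e) (botPair 1 2 t m d e) (topPair 0 1 t m d e) l₀ l₁ l₂ l₃ := by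
  have ht := bs_sq t
  have hm := bs_sq m
  have hd := bs_sq d
  have he := bs_sq e
  have hab := NZ_op P t (0, true) (1, true) (bare l₀ ++ [(0, false)] ++ bare l₁ ++ [(1, false)] ++ bare l₂) (bare l₃)
  have hac := NZ_op P m (0, false) (2, true) (bare l₀) (bare l₁ ++ ([(2, false)] ++ (bare l₂ ++ ([(0, true)] ++ (bare l₃)))))
  have hbc := NZ_op P d (1, false) (2, false) (bare l₀ ++ [(2, true)] ++ bare l₁) (bare l₂ ++ ([(1, true)] ++ (bare l₃)))
  simp only [List.append_assoc] at hab hac hbc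
  rw [dloc_eq, dR_eq P {0, 1}, dR_eq P {0, 2}, dR_eq P {1, 2}]
  simp only [bM_ab, bM_ab', wM_ab, bB_ab, bB_ab', wB_ab, bT_ab, bT_ab', wT_ab, bM_ac, bM_ac', wM_ac, bB_ac, bB_ac', wB_ac, bT_ac, bT_ac', wT_ac, bM_bc, bM_bc', wM_bc, bB_bc, bB_bc', wB_bc, bT_bc, bT_bc', wT_bc, XMBT, List.append_assoc]
  rw [hab, hac, hbc]
  exact algMBT _ _ _ _ _ _ _ _ _ ht hm hd he

/-- the sum of the three bare differences, order BTM -/
def XBTM (P : List (List (ℕ × Bool))) (x₀ x₁ x₂ x₃ : List (ℕ × Bool)) : ℤ :=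
  (NZ P (x₀ ++ [(1, false)] ++ x₁ ++ [(0, true), (1, true)] ++ x₂ ++ [(0, false)] ++ x₃) -
    NZ P (x₀ ++ [(1, false)] ++ x₁ ++ [(1, true), (0, true)] ++ x₂ ++ [(0, false)] ++ x₃)) +
  (NZ P (x₀ ++ [(2, false)] ++ x₁ ++ [(0, true)] ++ x₂ ++ [(0, false), (2, true)] ++ x₃) -
    NZ P (x₀ ++ [(2, false)] ++ x₁ ++ [(0, true)] ++ x₂ ++ [(2, true), (0, false)] ++ x₃)) +
  (NZ P (x₀ ++ [(1, false), (2, false)] ++ x₁ ++ [(1, true)] ++ x₂ ++ [(2, true)] ++ x₃) -
    NZ P (x₀ ++ [(2, false), (1, false)] ++ x₁ ++ [(1, true)] ++ x₂ ++ [(2, true)] ++ x₃))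

theorem algBTM (s T M D E Y1 Y2 Y3 r : ℤ) (ht : T * T = 1) (hm : M * M = 1)
    (hd : D * D = 1) (he : E * E = 1) :
    s * (1 * (M * D) * 1) * (T * Y1) + s * (1 * (T * M * E) * (M * D * E)) * (M * Y2) +
      s * (1 * (T * D * E) * (M * D * E)) * (D * Y3) + r = s * (T * M * D) * (Y1 + Y2 + Y3) + r := by
  have _ := ht
  linear_combination s * T * D * M * Y2 * E * E * hm + s * T * D * M * Y2 * he +
    s * T * M * D * Y3 * E * E * hd + s * T * M * D * Y3 * he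

theorem dlocBTM (P : List (List (ℕ × Bool))) (t m d e : Bool) (l₀ l₁ l₂ l₃ : Word) :
    dloc P 0 1 2 (botPair 1 2 t m d e) (topPair 0 1 t m d e) (midPair 0 2 t m d e) l₀ l₁ l₂ l₃ =
      wsgn (l₀ ++ l₁ ++ l₂ ++ l₃) * (bs t * bs m * bs d) *
        XBTM P (bare l₀) (bare l₁) (bare l₂) (bare l₃) +
      dR P {0, 1, 2} (botPair 1 2 t m d e) (topPair 0 1 t m d e) (midPair 0 2 t m d e) l₀ l₁ l₂ l₃ := by
  have ht := bs_sq t
  have hm := bs_sq m
  have hd := bs_sq d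
  have he := bs_sq e
  have hab := NZ_op P t (0, true) (1, true) (bare l₀ ++ [(1, false)] ++ bare l₁) (bare l₂ ++ ([(0, false)] ++ (bare l₃)))
  have hac := NZ_op P m (0, false) (2, true) (bare l₀ ++ [(2, false)] ++ bare l₁ ++ [(0, true)] ++ bare l₂) (bare l₃)
  have hbc := NZ_op P d (1, false) (2, false) (bare l₀) (bare l₁ ++ ([(1, true)] ++ (bare l₂ ++ ([(2, true)] ++ (bare l₃)))))
  simp only [List.append_assoc] at hab hac hbc
  rw [dloc_eq, dR_eq P {0, 1}, dR_eq P {0, 2}, dR_eq P {1, 2}]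
  simp only [bB_ab, bB_ab', wB_ab, bT_ab, bT_ab', wT_ab, bM_ab, bM_ab', wM_ab, bB_ac, bB_ac', wB_ac, bT_ac, bT_ac', wT_ac, bM_ac, bM_ac', wM_ac, bB_bc, bB_bc', wB_bc, bT_bc, bT_bc', wT_bc, bM_bc, bM_bc', wM_bc, XBTM, List.append_assoc]
  rw [hab, hac, hbc]
  exact algBTM _ _ _ _ _ _ _ _ _ ht hm hd he

/-- the sum of the three bare differences, order BMT -/
def XBMT (P : List (List (ℕ × Bool))) (x₀ x₁ x₂ x₃ : List (ℕ × Bool)) : ℤ :=
  (NZ P (x₀ ++ [(1, false)] ++ x₁ ++ [(0, false)] ++ x₂ ++ [(0, true), (1, true)] ++ x₃) -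
    NZ P (x₀ ++ [(1, false)] ++ x₁ ++ [(0, false)] ++ x₂ ++ [(1, true), (0, true)] ++ x₃)) +
  (NZ P (x₀ ++ [(2, false)] ++ x₁ ++ [(0, false), (2, true)] ++ x₂ ++ [(0, true)] ++ x₃) -
    NZ P (x₀ ++ [(2, false)] ++ x₁ ++ [(2, true), (0, false)] ++ x₂ ++ [(0, true)] ++ x₃)) +
  (NZ P (x₀ ++ [(1, false), (2, false)] ++ x₁ ++ [(2, true)] ++ x₂ ++ [(1, true)] ++ x₃) -
    NZ P (x₀ ++ [(2, false), (1, false)] ++ x₁ ++ [(2, true)] ++ x₂ ++ [(1, true)] ++ x₃))

theorem algBMT (s T M D E Y1 Y2 Y3 r : ℤ) (ht : T * T = 1) (hm : M * M = 1)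
    (hd : D * D = 1) (he : E * E = 1) :
    s * (1 * 1 * (M * D)) * (T * Y1) + s * (1 * (M * D * E) * (T * M * E)) * (M * Y2) +
      s * (1 * (M * D * E) * (T * D * E)) * (D * Y3) + r = s * (T * M * D) * (Y1 + Y2 + Y3) + r := by
  have _ := ht
  linear_combination s * T * D * M * Y2 * E * E * hm + s * T * D * M * Y2 * he +
    s * T * M * D * Y3 * E * E * hd + s * T * M * D * Y3 * he

theorem dlocBMT (P : List (List (ℕ × Bool))) (t m d e : Bool) (l₀ l₁ l₂ l₃ : Word) :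
    dloc P 0 1 2 (botPair 1 2 t m d e) (midPair 0 2 t m d e) (topPair 0 1 t m d e) l₀ l₁ l₂ l₃ =
      wsgn (l₀ ++ l₁ ++ l₂ ++ l₃) * (bs t * bs m * bs d) *
        XBMT P (bare l₀) (bare l₁) (bare l₂) (bare l₃) +
      dR P {0, 1, 2} (botPair 1 2 t m d e) (midPair 0 2 t m d e) (topPair 0 1 t m d e) l₀ l₁ l₂ l₃ := by
  have ht := bs_sq t
  have hm := bs_sq m
  have hd := bs_sq d
  have he := bs_sq e
  have hab := NZ_op P t (0, true) (1, true) (bare l₀ ++ [(1, false)] ++ bare l₁ ++ [(0, false)] ++ bare l₂) (bare l₃)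
  have hac := NZ_op P m (0, false) (2, true) (bare l₀ ++ [(2, false)] ++ bare l₁) (bare l₂ ++ ([(0, true)] ++ (bare l₃)))
  have hbc := NZ_op P d (1, false) (2, false) (bare l₀) (bare l₁ ++ ([(2, true)] ++ (bare l₂ ++ ([(1, true)] ++ (bare l₃)))))
  simp only [List.append_assoc] at hab hac hbc
  rw [dloc_eq, dR_eq P {0, 1}, dR_eq P {0, 2}, dR_eq P {1, 2}]
  simp only [bB_ab, bB_ab', wB_ab, bM_ab, bM_ab', wM_ab, bT_ab, bT_ab', wT_ab, bB_ac, bB_ac', wB_ac, bM_ac, bM_ac', wM_ac, bT_ac, bT_ac', wT_ac, bB_bc, bB_bc', wB_bc, bM_bc, bM_bc', wM_bc, bT_bc, bT_bc', wT_bc, XBMT, List.append_assoc]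
  rw [hab, hac, hbc]
  exact algBMT _ _ _ _ _ _ _ _ _ ht hm hd he

end Pool.Agent.ZOL.H40
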