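import Pool.Agent.Helper40_ZOL.Defs

/-!
# ZOL: statements of the rows
-/

namespace Pool.Agent.ZOL

open Finset

/-! ### Auxiliary definitions -/

/-- Sign of the crossing seen from a letter. -/
def sgn (l : Letter) : ℤ := if l.2.1 = l.2.2 then 1 else -1

/-- Product of the signs of the crossings (each crossing has one overpass). -/
def wsgn (w : Word) : ℤ := ((w.filter (fun l => l.2.2)).map sgn).prod

/-- Labels replaced by the position of their first occurrence; sides forgotten. -/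
def shape (w : Word) : List (ℕ × Bool) :=
  w.map (fun l => ((w.map Prod.fst).idxOf l.1, l.2.2))

/-- Pattern function. -/
def f (P : List (List (ℕ × Bool))) (w : Word) : ℤ := if shape w ∈ P then wsgn w else 0

/-- The arrow diagram count. -/
def V (P : List (List (ℕ × Bool))) (w : Word) : ℤ := ∑ S ∈ (labels w).powerset, f P (sub S w)

/-- Polyak-Viro formula for the Casson invariant `v_2`. -/
def P2 : List (List (ℕ × Bool)) := [[(0, false), (1, true), (0, true), (1, false)]]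

/-- A five term arrow diagram formula for `v_3` of long classical knots. -/
def P3 : List (List (ℕ × Bool)) :=
  [[(0, false), (1, true), (2, false), (0, true), (1, false), (2, true)],
   [(0, true), (1, false), (2, true), (0, false), (1, true), (2, false)],
   [(0, true), (1, true), (2, false), (0, false), (2, true), (1, false)],
   [(0, true), (1, false), (2, false), (1, true), (0, false), (2, true)],
   [(0, false), (1, true), (0, true), (3, false), (1, false), (3, true)]]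

/-- Connected sum (concatenation) of words, with even and odd labels. -/
def mul (w E : Word) : Word := relab (fun n => 2 * n) w ++ relab (fun n => 2 * n + 1) E

/-- Right handed trefoil. -/
def trefoil : Word :=
  [(0, true, true), (1, false, false), (2, true, true), (0, false, false), (1, true, true),
   (2, false, false)]

/-- Figure eight knot. -/
def eight : Word :=
  [(0, true, true), (1, true, false), (2, false, true), (0, false, false), (3, true, true),
   (2, true, false), (1, false, true), (3, false, false)]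

/-- A function of finite sets which is a sum of functions depending on at most `m` elements. -/
def Deg (m : ℕ) (h : Finset ℕ → ℤ) : Prop :=
  ∀ A : Finset ℕ, m < A.card → ∑ B ∈ A.powerset, (-1 : ℤ) ^ B.card * h B = 0

/-- `theta v j` multiplies the basis element `k` by `binom (v k) j`. -/
noncomputable def theta {K : Type} (v : K → ℤ) (j : ℕ) : (K →₀ ℤ) →+ (K →₀ ℤ) :=
  Finsupp.liftAddHom (fun k => (Finsupp.singleAddHom k).comp
    (AddMonoidHom.mulLeft (Ring.choose (v k) j)))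

/-- linear extension of a map of knots -/
noncomputable def lin {K : Type} (g : K → K) : (K →₀ ℤ) →+ (K →₀ ℤ) :=
  Finsupp.mapDomain.addMonoidHom g

/-! ### Rows -/

/-- ALG (pure algebra, split form).  Write `T x = ∑ i, s i • lin (M i) x` and
`R = ∑ k in [1, N], (-1) ^ (k - 1) • T^[k-1] (theta v k x)` with `N = d + m + 1`.
Vandermonde (`Ring.add_choose_eq`) gives
`theta v k (T x) = ∑ i, s i • ∑ (a, b) in antidiagonal k,
   choose (e i) b • lin (M i) (theta v a x)`.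
The `b = 0` terms are `T (theta v k x)`; the `b = 1` terms are
`∑ i, (s i * e i) • lin (M i) (theta v (k-1) x)`, congruent to `theta v (k-1) x` modulo
`G (d - m * (k-1) + 1)`; the terms with `b ≥ 2` are in `G (d - m * a)`, `a ≤ k - 2`
(`lin (M i)` maps `G n` into `G n` by the hypothesis on `lin (M i) x - x`).  So
`theta v k (T x) - T (theta v k x) - theta v (k-1) x ∈ G (d + m + 1 - m * k)` for `k ≥ 1`
(trivial when `m * k ≥ d + m + 1`: everything is in `G 0`, use the hypotheses), and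
`T^[k-1]` maps this into `G (d + 1)`.  Telescoping: `R (T x) - x` is in `G (d+1)` up to
`T^[N] (theta v N x) ∈ G (m * N) ≤ G (d + 1)`. -/
def AlgStmt : Prop :=
  ∀ (K ι : Type) [Fintype ι] (G : ℕ → AddSubgroup (K →₀ ℤ)) (v : K → ℤ) (M : ι → K → K)
    (s e : ι → ℤ) (m : ℕ), 1 ≤ m → (∀ d, G (d + 1) ≤ G d) → G 0 = ⊤ →
    (∀ i k, v (M i k) = v k + e i) →
    (∀ j d, ∀ x ∈ G d, theta v j x ∈ G (d - m * j)) →
    (∀ d, ∀ x ∈ G d, (∑ i, s i • lin (M i) x) ∈ G (d + m)) →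
    (∀ i d, ∀ x ∈ G d, lin (M i) x - x ∈ G (d + 1)) →
    (∑ i, s i * e i = 1) →
    ∀ d, ∃ R : (K →₀ ℤ) →+ (K →₀ ℤ),
      (∀ x ∈ G (d + m), R x ∈ G d) ∧ (∀ x ∈ G (d + m + 1), R x ∈ G (d + 1)) ∧
      ∀ x ∈ G d, R (∑ i, s i • lin (M i) x) - x ∈ G (d + 1)

/-- DEG3 (Moebius inversion). -/
def Deg3Stmt : Prop :=
  ∀ (h : Finset ℕ → ℤ) (S : Finset ℕ),
    h S = ∑ A ∈ S.powerset, (-1 : ℤ) ^ A.card * ∑ B ∈ A.powerset, (-1 : ℤ) ^ B.card * h B

/-- DEG1 (product rule). Proof: expand `h` and `g` by DEG3. -/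
def Deg1Stmt : Prop :=
  ∀ (h g : Finset ℕ → ℤ) (m n : ℕ), Deg m h → Deg n g → Deg (m + n) (fun S => h S * g S)

/-- DEG2 (binomial coefficients).  Proof: `j ! * Ring.choose (h S) j` is the product of
`h S - i`, `i < j`, of degree `m * j` by DEG1; `ℤ` has no torsion. -/
def Deg2Stmt : Prop :=
  ∀ (h : Finset ℕ → ℤ) (m j : ℕ), Deg m h → Deg (m * j) (fun S => Ring.choose (h S) j)

/-- TH (uses DEG2, DEG3).  On a generator `alt C w` of `F d`: `theta v j (kn (flip S w))` is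
`choose (vW (flip S w)) j • kn (flip S w)`; write the coefficient by DEG3 as a sum over `A ⊆ S`
of `c A`, `c A = 0` if `m * j < A.card` by DEG2; and
`∑ S with A ⊆ S ⊆ C, (-1)^S.card • kn (flip S w) = (-1)^A.card • alt (C \ A) (flip A w)`. -/
def ThStmt : Prop :=
  ∀ (v : Knot → ℤ) (vW : Word → ℤ) (m : ℕ),
    (∀ D : Diagram, v (Quot.mk _ D) = vW D.1) →
    (∀ w, IsGauss w → Deg m (fun S => vW (flip S w))) →
    ∀ (j d : ℕ), ∀ x ∈ F d, theta v j x ∈ F (d - m * j)

/-- FANT: the filtration is decreasing.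
`alt (insert c C) w = alt C w - alt C (flip {c} w)`. -/
def FAntStmt : Prop := ∀ d, F (d + 1) ≤ F d

/-- FZERO: `alt ∅ w = kn w`. -/
def FZeroStmt : Prop := F 0 = ⊤

/-- VDEG.  `sub S (flip B w) = flip (B ∩ S) (sub S w)`, and the summand of `V` at `S` vanishes
unless `S.card = m` (length).  If `A.card > m` choose `c ∈ A \ S` and pair `B` with `B ∆ {c}`. -/
def VDegStmt : Prop :=
  ∀ (P : List (List (ℕ × Bool))) (m : ℕ), (∀ p ∈ P, p.length = 2 * m) →
    ∀ w, IsGauss w → Deg m (fun S => V P (flip S w))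

/-- VADD. -/
def VAddStmt : Prop :=
  ∀ w E : Word, IsGauss w → IsGauss E →
    V P2 (mul w E) = V P2 w + V P2 E ∧ V P3 (mul w E) = V P3 w + V P3 E

/-- VREN. -/
def VRenStmt : Prop :=
  ∀ (P : List (List (ℕ × Bool))) (w : Word) (σ : ℕ → ℕ), Set.InjOn σ (labels w : Set ℕ) →
    V P (relab σ w) = V P w

/-- VR1. -/
def VR1Stmt : Prop :=
  ∀ (u v : Word) (a : ℕ) (r o : Bool), IsGauss (u ++ [(a, r, o), (a, !r, !o)] ++ v) →
    V P2 (u ++ [(a, r, o), (a, !r, !o)] ++ v) = V P2 (u ++ v) ∧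
    V P3 (u ++ [(a, r, o), (a, !r, !o)] ++ v) = V P3 (u ++ v)

/-- VR2a. -/
def VR2aStmt : Prop :=
  ∀ (u v z : Word) (a b : ℕ) (r o : Bool),
    IsGauss (u ++ [(a, r, o), (b, !r, o)] ++ v ++ [(a, !r, !o), (b, r, !o)] ++ z) →
    V P2 (u ++ [(a, r, o), (b, !r, o)] ++ v ++ [(a, !r, !o), (b, r, !o)] ++ z) =
      V P2 (u ++ v ++ z) ∧
    V P3 (u ++ [(a, r, o), (b, !r, o)] ++ v ++ [(a, !r, !o), (b, r, !o)] ++ z) =
      V P3 (u ++ v ++ z)

/-- VR2b. -/
def VR2bStmt : Prop :=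
  ∀ (u v z : Word) (a b : ℕ) (r o : Bool),
    IsGauss (u ++ [(a, r, o), (b, !r, o)] ++ v ++ [(b, r, !o), (a, !r, !o)] ++ z) →
    V P2 (u ++ [(a, r, o), (b, !r, o)] ++ v ++ [(b, r, !o), (a, !r, !o)] ++ z) =
      V P2 (u ++ v ++ z) ∧
    V P3 (u ++ [(a, r, o), (b, !r, o)] ++ v ++ [(b, r, !o), (a, !r, !o)] ++ z) =
      V P3 (u ++ v ++ z)

/-- VR3A: third move for `P2` (any order of the strands). -/
def VR3aStmt : Prop :=
  ∀ (u₀ u₁ u₂ u₃ s₁ s₂ s₃ : Word) (a b c : ℕ) (t m d e : Bool),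
    [s₁, s₂, s₃].Perm [topPair a b t m d e, midPair a c t m d e, botPair b c t m d e] →
    IsGauss (u₀ ++ s₁ ++ u₁ ++ s₂ ++ u₂ ++ s₃ ++ u₃) →
    V P2 (u₀ ++ s₁ ++ u₁ ++ s₂ ++ u₂ ++ s₃ ++ u₃) =
      V P2 (u₀ ++ s₁.reverse ++ u₁ ++ s₂.reverse ++ u₂ ++ s₃.reverse ++ u₃)

/-- The local difference of the third move: the part of `V P` (left) `- V P` (right) which comes
from the sub-words with at least two of the three crossings `a, b, c`, the rest of the sub-word
being `l₀, l₁, l₂, l₃` in the four slots. -/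
def dloc (P : List (List (ℕ × Bool))) (a b c : ℕ) (s₁ s₂ s₃ l₀ l₁ l₂ l₃ : Word) : ℤ :=
  (([{a, b}, {a, c}, {b, c}, {a, b, c}] : List (Finset ℕ)).map (fun R =>
    f P (l₀ ++ sub R s₁ ++ l₁ ++ sub R s₂ ++ l₂ ++ sub R s₃ ++ l₃) -
    f P (l₀ ++ sub R s₁.reverse ++ l₁ ++ sub R s₂.reverse ++ l₂ ++ sub R s₃.reverse ++ l₃))).sum

/-- `J l l'` is the sum of the signs `eps` over the letters of `l` whose partner is in `l'`. -/
def J (l l' : Word) : ℤ :=
  ((l.filter (fun x => decide (bar x ∈ l'))).map (fun x => eps (x.1, x.2.1))).sum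

/-- The sign of a boolean. -/
def bs (t : Bool) : ℤ := if t then 1 else -1

/-- DSUM: the difference for the third move is a sum over the at most one other crossing of the
local differences.  (`P` has patterns with three arrows or two arrows.) -/
def DSumStmt : Prop :=
  ∀ (P : List (List (ℕ × Bool))), (∀ p ∈ P, p.length ≤ 6) →
  ∀ (u₀ u₁ u₂ u₃ s₁ s₂ s₃ : Word) (a b c : ℕ) (t m d e : Bool),
    [s₁, s₂, s₃].Perm [topPair a b t m d e, midPair a c t m d e, botPair b c t m d e] →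
    IsGauss (u₀ ++ s₁ ++ u₁ ++ s₂ ++ u₂ ++ s₃ ++ u₃) →
    V P (u₀ ++ s₁ ++ u₁ ++ s₂ ++ u₂ ++ s₃ ++ u₃) -
      V P (u₀ ++ s₁.reverse ++ u₁ ++ s₂.reverse ++ u₂ ++ s₃.reverse ++ u₃) =
    dloc P a b c s₁ s₂ s₃ [] [] [] [] +
      ∑ x ∈ labels (u₀ ++ u₁ ++ u₂ ++ u₃),
        dloc P a b c s₁ s₂ s₃ (sub {x} u₀) (sub {x} u₁) (sub {x} u₂) (sub {x} u₃)

/-- DLOC2: the local differences can be computed with the labels `0, 1, 2, 3`
(relabelling: `f P (relab σ w) = f P w` for `σ` injective on the labels of `w`).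
Here `l₀ ++ l₁ ++ l₂ ++ l₃ = [y, bar y]` with `y.1 = x`. -/
def DLoc2Stmt : Prop :=
  ∀ (s₁ s₂ s₃ l₀ l₁ l₂ l₃ : Word) (a b c x : ℕ) (t m d e : Bool) (y : Letter),
    [s₁, s₂, s₃].Perm [topPair a b t m d e, midPair a c t m d e, botPair b c t m d e] →
    a ≠ b → a ≠ c → b ≠ c → x ≠ a → x ≠ b → x ≠ c →
    y.1 = x → (l₀ ++ l₁ ++ l₂ ++ l₃ = [] ∨ l₀ ++ l₁ ++ l₂ ++ l₃ = [y, bar y]) →
    dloc P2 a b c s₁ s₂ s₃ l₀ l₁ l₂ l₃ = 0

/-- DLOC3: the local differences for `P3`, when the strands do not come in the order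
top, bottom, middle. (finite check after relabelling; numerically verified) -/
def DLoc3Stmt : Prop :=
  ∀ (s₁ s₂ s₃ l₀ l₁ l₂ l₃ : Word) (a b c x : ℕ) (t m d e : Bool) (y : Letter),
    [s₁, s₂, s₃].Perm [topPair a b t m d e, midPair a c t m d e, botPair b c t m d e] →
    [s₁, s₂, s₃] ≠ [topPair a b t m d e, botPair b c t m d e, midPair a c t m d e] →
    a ≠ b → a ≠ c → b ≠ c → x ≠ a → x ≠ b → x ≠ c →
    y.1 = x → (l₀ ++ l₁ ++ l₂ ++ l₃ = [] ∨ l₀ ++ l₁ ++ l₂ ++ l₃ = [y, bar y]) →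
    dloc P3 a b c s₁ s₂ s₃ l₀ l₁ l₂ l₃ = 0

/-- The constant of the third move in the order top, bottom, middle. -/
def kap (t m d e : Bool) : ℤ := if t = m ∧ m = d then bs e else 0

/-- DLOC3T: the local differences for `P3`, strands in the order top, bottom, middle.
(finite check after relabelling; numerically verified) -/
def DLoc3TStmt : Prop :=
  ∀ (l₀ l₁ l₂ l₃ : Word) (a b c x : ℕ) (t m d e : Bool) (y : Letter),
    a ≠ b → a ≠ c → b ≠ c → x ≠ a → x ≠ b → x ≠ c → y.1 = x →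
    dloc P3 a b c (topPair a b t m d e) (botPair b c t m d e) (midPair a c t m d e) [] [] [] [] =
      -(bs t * bs m * bs d) * kap t m d e ∧
    (l₀ ++ l₁ ++ l₂ ++ l₃ = [y, bar y] →
      dloc P3 a b c (topPair a b t m d e) (botPair b c t m d e) (midPair a c t m d e)
        l₀ l₁ l₂ l₃ = (bs t * bs m * bs d) * (J l₂ l₀ + J l₂ l₃))

/-- PREL: what planarity gives for the third move, strands in the order top, bottom, middle.
Proof.  Condition 1 for `c`: `∑ (eps) over u₂`, plus `eps` of the letter `b` in the bottom pair if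
`d = false`, plus `eps` of the letter `a` in the middle pair if `m = true`, is `0`.
Also `∑ (eps) over u₂ = ∑ x, (J l₂ l₀ + J l₂ l₁ + J l₂ l₃)` with `lᵢ = sub {x} uᵢ`
(`J l₂ l₂ = 0` because `eps (bar l) = - eps l`).  Condition 2 for `b, c` gives
`∑ x, J l₂ l₁` as a constant. -/
def PRelStmt : Prop :=
  ∀ (u₀ u₁ u₂ u₃ : Word) (a b c : ℕ) (t m d e : Bool),
    IsGauss (u₀ ++ topPair a b t m d e ++ u₁ ++ botPair b c t m d e ++ u₂ ++
      midPair a c t m d e ++ u₃) →
    Planar (shadow (u₀ ++ topPair a b t m d e ++ u₁ ++ botPair b c t m d e ++ u₂ ++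
      midPair a c t m d e ++ u₃)) →
    ∑ x ∈ labels (u₀ ++ u₁ ++ u₂ ++ u₃),
      (J (sub {x} u₂) (sub {x} u₀) + J (sub {x} u₂) (sub {x} u₃)) = kap t m d e

/-- VR3B (from DSUM, DLOC3, DLOC3T, PREL): third move for `P3`. -/
def VR3bStmt : Prop :=
  ∀ (u₀ u₁ u₂ u₃ s₁ s₂ s₃ : Word) (a b c : ℕ) (t m d e : Bool),
    [s₁, s₂, s₃].Perm [topPair a b t m d e, midPair a c t m d e, botPair b c t m d e] →
    IsGauss (u₀ ++ s₁ ++ u₁ ++ s₂ ++ u₂ ++ s₃ ++ u₃) →
    Planar (shadow (u₀ ++ s₁ ++ u₁ ++ s₂ ++ u₂ ++ s₃ ++ u₃)) →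
    V P3 (u₀ ++ s₁ ++ u₁ ++ s₂ ++ u₂ ++ s₃ ++ u₃) =
      V P3 (u₀ ++ s₁.reverse ++ u₁ ++ s₂.reverse ++ u₂ ++ s₃.reverse ++ u₃)

/-- MGAU. -/
def MGauStmt : Prop := ∀ w E : Word, IsGauss w → IsGauss E → IsGauss (mul w E)

/-- MPLA. -/
def MPlaStmt : Prop :=
  ∀ w E : Word, IsGauss w → IsGauss E → Planar (shadow w) → Planar (shadow E) →
    Planar (shadow (mul w E))

/-- MSTEP. -/
def MStepStmt : Prop := ∀ w w' E : Word, Step w w' → Step (mul w E) (mul w' E)

/-- GFLIP. -/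
def GFlipStmt : Prop := ∀ (w : Word) (S : Finset ℕ), IsGauss w → IsGauss (flip S w)

/-- UNK (moves R2a, R1 resp. R2b, R1, R1, and renaming). -/
def UnkStmt : Prop :=
  (IsGauss trefoil ∧ Planar (shadow trefoil)) ∧ (IsGauss eight ∧ Planar (shadow eight)) ∧
  ∀ w : Word, IsGauss w → Planar (shadow w) →
    kn (mul w (flip {1} trefoil)) = kn w ∧ kn (mul w (flip {1} eight)) = kn w

/-- FMUL: multiplication by an alternating sum over `C'` maps `F d` into `F (d + card C')`.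
`mul w (flip S' E)` with `flip S w` in place of `w` is `flip (2 S ∪ (2 S' + 1)) (mul w E)`. -/
def FMulStmt : Prop :=
  ∀ (E : Word) (C' : Finset ℕ) (M : Finset ℕ → ZK →+ ZK), IsGauss E → Planar (shadow E) →
    C' ⊆ labels E →
    (∀ S ∈ C'.powerset, ∀ w, IsGauss w → Planar (shadow w) →
      M S (kn w) = kn (mul w (flip S E))) →
    ∀ d, ∀ x ∈ F d, (∑ S ∈ C'.powerset, (-1 : ℤ) ^ S.card • M S x) ∈ F (d + C'.card)

/-- FCH: crossing changes in the factor change a product by an element of the next step of the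
filtration (induction on `S`). -/
def FChStmt : Prop :=
  ∀ (E : Word) (S : Finset ℕ) (M M' : ZK →+ ZK), IsGauss E → Planar (shadow E) →
    S ⊆ labels E →
    (∀ w, IsGauss w → Planar (shadow w) → M (kn w) = kn (mul w E)) →
    (∀ w, IsGauss w → Planar (shadow w) → M' (kn w) = kn (mul w (flip S E))) →
    ∀ d, ∀ x ∈ F d, M x - M' x ∈ F (d + 1)

/-- VAL: the numerical values. -/
def ValStmt : Prop :=
  (∑ S ∈ ({0, 1} : Finset ℕ).powerset, (-1 : ℤ) ^ S.card * V P2 (flip S trefoil) = 1) ∧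
  (∑ S ∈ ({0, 1, 2} : Finset ℕ).powerset, (-1 : ℤ) ^ S.card * V P3 (flip S eight) = 1)

/-- The graded piece `F d / F (d+1)`. -/
abbrev Gr (d : ℕ) := F d ⧸ (F (d + 1)).addSubgroupOf (F d)

/-- GR: passage to the quotient groups. -/
def GrStmt : Prop :=
  ∀ (d e : ℕ) (i r : ZK →+ ZK), (∀ x ∈ F d, i x ∈ F e) → (∀ x ∈ F (d + 1), i x ∈ F (e + 1)) →
    (∀ x ∈ F e, r x ∈ F d) → (∀ x ∈ F (e + 1), r x ∈ F (d + 1)) →
    (∀ x ∈ F d, r (i x) - x ∈ F (d + 1)) →
    ∃ (i' : Gr d →+ Gr e) (r' : Gr e →+ Gr d), r'.comp i' = AddMonoidHom.id (Gr d)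

end Pool.Agent.ZOL
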