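import Pool.Agent.Helper40_ZOL.Kit

namespace Pool.Agent.ZOL.H40

open Finset

theorem image_inj {σ : ℕ → ℕ} {L S T : Finset ℕ} (hσ : Set.InjOn σ (L : Set ℕ))
    (hS : S ⊆ L) (hT : T ⊆ L) (h : S.image σ = T.image σ) : S = T := by
  have key : ∀ {A B : Finset ℕ}, A ⊆ L → B ⊆ L → A.image σ = B.image σ → A ⊆ B := by
    intro A B hA hB hAB x hx
    have : σ x ∈ B.image σ := by rw [← hAB]; exact Finset.mem_image_of_mem _ hx
    obtain ⟨y, hy, hyx⟩ := Finset.mem_image.1 this
    have := hσ (by exact_mod_cast hB hy) (by exact_mod_cast hA hx) hyx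
    rwa [← this]
  exact Finset.Subset.antisymm (key hS hT h) (key hT hS h.symm)

theorem vren : VRenStmt := by
  intro P w σ hσ
  have e : (labels (relab σ w)).powerset = (labels w).powerset.image (Finset.image σ) := by
    rw [labels_relab]
    ext T
    simp only [Finset.mem_powerset, Finset.mem_image]
    constructor
    · intro hT
      refine ⟨(labels w).filter (fun x => σ x ∈ T), Finset.filter_subset _ _, ?_⟩
      ext y
      simp only [Finset.mem_image, Finset.mem_filter]
      constructor
      · rintro ⟨x, ⟨_, hx⟩, rfl⟩; exact hx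
      · intro hy
        obtain ⟨x, hx, rfl⟩ := Finset.mem_image.1 (hT hy)
        exact ⟨x, ⟨hx, hy⟩, rfl⟩
    · rintro ⟨S, hS, rfl⟩
      exact Finset.image_subset_image hS
  rw [V, e, Finset.sum_image, V]
  · apply Finset.sum_congr rfl
    intro S hS
    have hS' := Finset.mem_powerset.1 hS
    rw [sub_relab hσ hS', f_relab]
    intro x hx y hy
    have hx' : x ∈ S ∩ labels w := by rw [← labels_sub]; exact_mod_cast hx
    have hy' : y ∈ S ∩ labels w := by rw [← labels_sub]; exact_mod_cast hy
    exact hσ (by exact_mod_cast (Finset.mem_inter.1 hx').2)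
      (by exact_mod_cast (Finset.mem_inter.1 hy').2)
  · intro S hS T hT h
    exact image_inj hσ (Finset.mem_powerset.1 (by exact_mod_cast hS))
      (Finset.mem_powerset.1 (by exact_mod_cast hT)) h

end Pool.Agent.ZOL.H40
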